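import Mathlib

/-!
Functions on the integers with vanishing iterated differences, and the p-adic auxiliary function.
-/

set_option autoImplicit false

namespace Run7.h197.PB

open Finset

section one
variable {R : Type} [CommRing R]

/-- the difference operator -/
def dl (f : ℤ → R) : ℤ → R := fun u => f (u + 1) - f u

/-- the `n`-th difference vanishes -/
def NV (n : ℕ) (f : ℤ → R) : Prop := ∀ u, (dl^[n] f) u = 0

theorem dl_zero : dl (fun _ => (0 : R)) = fun _ => 0 := by
  funext u
  simp [dl]

theorem NV_zero {f : ℤ → R} : NV 0 f ↔ f = fun _ => 0 := by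
  unfold NV
  simp only [Function.iterate_zero, id]
  exact ⟨fun h => funext h, fun h u => by rw [h]⟩

theorem NV_succ {f : ℤ → R} {n : ℕ} : NV (n + 1) f ↔ NV n (dl f) := by
  unfold NV
  rw [Function.iterate_succ_apply]

theorem NV_const_zero (n : ℕ) : NV n (fun _ => (0 : R)) := by
  induction n with
  | zero => rw [NV_zero]
  | succ n ih => rw [NV_succ, dl_zero]; exact ih

theorem NV.succ {f : ℤ → R} {n : ℕ} (h : NV n f) : NV (n + 1) f := by
  induction n generalizing f with
  | zero =>
    rw [NV_zero] at h
    rw [NV_succ, NV_zero, h, dl_zero]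
  | succ n ih =>
    rw [NV_succ] at h
    rw [NV_succ]
    exact ih h

theorem NV.mono {f : ℤ → R} {n m : ℕ} (h : NV n f) (hnm : n ≤ m) : NV m f := by
  obtain ⟨k, rfl⟩ := Nat.exists_eq_add_of_le hnm
  induction k with
  | zero => exact h
  | succ k ih => exact (ih (Nat.le_add_right _ _)).succ

theorem dl_add (f g : ℤ → R) : dl (fun u => f u + g u) = fun u => dl f u + dl g u := by
  funext u
  simp only [dl]
  ring

theorem NV.add {f g : ℤ → R} {n : ℕ} (hf : NV n f) (hg : NV n g) : NV n (fun u => f u + g u) := by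
  induction n generalizing f g with
  | zero =>
    rw [NV_zero] at hf hg ⊢
    rw [hf, hg]
    simp
  | succ n ih =>
    rw [NV_succ] at hf hg ⊢
    rw [dl_add]
    exact ih hf hg

theorem NV.shift {f : ℤ → R} {n : ℕ} (hf : NV n f) : NV n (fun u => f (u + 1)) := by
  induction n generalizing f with
  | zero =>
    rw [NV_zero] at hf ⊢
    rw [hf]
  | succ n ih =>
    rw [NV_succ] at hf ⊢
    exact ih hf

theorem NV.smul {f : ℤ → R} {n : ℕ} (hf : NV n f) (c : R) : NV n (fun u => c * f u) := by
  induction n generalizing f with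
  | zero =>
    rw [NV_zero] at hf ⊢
    rw [hf]
    simp
  | succ n ih =>
    rw [NV_succ] at hf ⊢
    have e : dl (fun u => c * f u) = fun u => c * dl f u := by
      funext u
      simp only [dl]
      ring
    rw [e]
    exact ih hf

theorem NV.sum {ι : Type} (s : Finset ι) {f : ι → ℤ → R} {n : ℕ} (hf : ∀ i ∈ s, NV n (f i)) :
    NV n (fun u => ∑ i ∈ s, f i u) := by
  classical
  induction s using Finset.induction_on with
  | empty => simpa using NV_const_zero n
  | insert i s hi ih =>
    have e : (fun u => ∑ j ∈ insert i s, f j u) = fun u => f i u + ∑ j ∈ s, f j u := by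
      funext u
      rw [Finset.sum_insert hi]
    rw [e]
    exact (hf i (Finset.mem_insert_self _ _)).add
      (ih fun j hj => hf j (Finset.mem_insert_of_mem hj))

theorem NV.mul {f g : ℤ → R} {a b : ℕ} (hf : NV a f) (hg : NV b g) :
    NV (a + b) (fun u => f u * g u) := by
  obtain ⟨n, hn⟩ : ∃ n, n = a + b := ⟨_, rfl⟩
  induction n generalizing a b f g with
  | zero =>
    have ha : a = 0 := by omega
    subst ha
    rw [NV_zero] at hf
    rw [hf]
    simpa using NV_const_zero _
  | succ n ih =>
    rcases Nat.eq_zero_or_pos a with ha | ha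
    · subst ha
      rw [NV_zero] at hf
      rw [hf]
      simpa using NV_const_zero _
    rcases Nat.eq_zero_or_pos b with hb | hb
    · subst hb
      rw [NV_zero] at hg
      rw [hg]
      simpa using NV_const_zero _
    obtain ⟨a', rfl⟩ := Nat.exists_eq_add_of_le' ha
    obtain ⟨b', rfl⟩ := Nat.exists_eq_add_of_le' hb
    rw [← hn, NV_succ]
    have e : dl (fun u => f u * g u) = fun u => dl f u * g (u + 1) + f u * dl g u := by
      funext u
      simp only [dl]
      ring
    rw [e]
    have h1 : n = a' + (b' + 1) := by omega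
    have h2 : n = (a' + 1) + b' := by omega
    apply NV.add
    · rw [h1]
      exact ih (NV_succ.1 hf) hg.shift h1
    · rw [h2]
      exact ih hf (NV_succ.1 hg) h2

/-- a function with vanishing `n`-th difference is determined by `n` values -/
theorem NV.eq_zero {f : ℤ → R} {n : ℕ} (hf : NV n f) (h0 : ∀ k : ℕ, k < n → f (k : ℤ) = 0) (u : ℤ) :
    f u = 0 := by
  induction n generalizing f u with
  | zero =>
    rw [NV_zero] at hf
    rw [hf]
  | succ n ih =>
    have h1 : ∀ u, dl f u = 0 := fun u => ih (NV_succ.1 hf) (by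
      intro k hk
      have h2 := h0 (k + 1) (by omega)
      have h3 := h0 k (by omega)
      simp only [dl]
      push_cast at h2
      rw [h2, h3, sub_zero]) u
    have hstep : ∀ u, f (u + 1) = f u := fun u => sub_eq_zero.1 (h1 u)
    have h00 : f 0 = 0 := by
      have := h0 0 (by omega)
      exact_mod_cast this
    induction u using Int.induction_on with
    | zero => exact h00
    | succ i hi => rw [hstep]; exact hi
    | pred i hi =>
      have := hstep (-(i : ℤ) - 1)
      rw [sub_add_cancel] at this
      rw [← this]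
      exact hi

/-- binomial coefficients -/
theorem NV_choose (l : ℕ) : NV (l + 1) (fun u : ℤ => ((Ring.choose u l : ℤ) : R)) := by
  induction l with
  | zero =>
    rw [NV_succ, NV_zero]
    funext u
    simp [dl]
  | succ l ih =>
    rw [NV_succ]
    have e : dl (fun u : ℤ => ((Ring.choose u (l + 1) : ℤ) : R)) =
        fun u : ℤ => ((Ring.choose u l : ℤ) : R) := by
      funext u
      simp only [dl]
      rw [Ring.choose_succ_succ]
      push_cast
      ring
    rw [e]
    exact ih

/-- powers of a unipotent unit -/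
theorem NV_pow (β : Rˣ) {N : ℕ} (hβ : ((β : R) - 1) ^ N = 0) :
    NV N (fun u : ℤ => ((β ^ u : Rˣ) : R)) := by
  have key : ∀ n : ℕ, ∀ u : ℤ, (dl^[n] (fun u : ℤ => ((β ^ u : Rˣ) : R))) u =
      ((β : R) - 1) ^ n * ((β ^ u : Rˣ) : R) := by
    intro n
    induction n with
    | zero => intro u; simp
    | succ n ih =>
      intro u
      rw [Function.iterate_succ_apply']
      simp only [dl]
      rw [ih, ih, zpow_add, zpow_one]
      push_cast
      ring
  intro u
  rw [key, hβ, zero_mul]

end one

section several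
variable {R : Type} [CommRing R]

/-- functions of several variables -/
theorem multi_zero {τ ι : Type} [Fintype τ] [DecidableEq τ] [Fintype ι] (n : ℕ) (c : ι → R)
    (f : ι → τ → ℤ → R) (hf : ∀ i j, NV n (f i j))
    (h0 : ∀ k : τ → Fin n, ∑ i, c i * ∏ j, f i j ((k j : ℕ) : ℤ) = 0) (u : τ → ℤ) :
    ∑ i, c i * ∏ j, f i j (u j) = 0 := by
  classical
  have key : ∀ s : Finset τ, ∀ u : τ → ℤ, (∀ j ∉ s, ∃ k : ℕ, k < n ∧ u j = k) →
      ∑ i, c i * ∏ j, f i j (u j) = 0 := by
    intro s
    induction s using Finset.induction_on with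
    | empty =>
      intro u hu
      choose k hk hu using fun j => hu j (Finset.notMem_empty j)
      have := h0 (fun j => ⟨k j, hk j⟩)
      rw [← this]
      refine Finset.sum_congr rfl fun i _ => ?_
      congr 1
      exact Finset.prod_congr rfl fun j _ => by rw [hu j]
    | insert j₀ s hj ih =>
      intro u hu
      have hg : NV n (fun x : ℤ => ∑ i, c i * ∏ j, f i j (Function.update u j₀ x j)) := by
        apply NV.sum
        intro i _
        have e : (fun x : ℤ => c i * ∏ j, f i j (Function.update u j₀ x j)) =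
            fun x : ℤ => (c i * ∏ j ∈ Finset.univ.erase j₀, f i j (u j)) * f i j₀ x := by
          funext x
          rw [← Finset.mul_prod_erase _ _ (Finset.mem_univ j₀), Function.update_self]
          have e2 : ∏ j ∈ Finset.univ.erase j₀, f i j (Function.update u j₀ x j) =
              ∏ j ∈ Finset.univ.erase j₀, f i j (u j) := by
            refine Finset.prod_congr rfl fun j hj => ?_
            rw [Function.update_of_ne (Finset.ne_of_mem_erase hj)]
          rw [e2]
          ring
        rw [e]
        exact (hf i j₀).smul _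
      have h1 := hg.eq_zero (by
        intro k hk
        refine ih _ ?_
        intro j hjs
        by_cases hjj : j = j₀
        · subst hjj
          exact ⟨k, hk, by rw [Function.update_self]⟩
        · rw [Function.update_of_ne hjj]
          exact hu j (by
            rw [Finset.mem_insert, not_or]
            exact ⟨hjj, hjs⟩)) (u j₀)
      simp only [Function.update_eq_self] at h1
      exact h1
  exact key Finset.univ u (fun j hj => absurd (Finset.mem_univ j) hj)

/-- **the auxiliary function** -/
theorem exists_aux {τ : Type} [Fintype τ] [DecidableEq τ] [Finite R] (Q L N H : ℕ)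
    (β : τ → Rˣ) (hβ : ∀ j, ((β j : R) - 1) ^ N = 0)
    (hpig : Nat.card R ^ ((Q + N) ^ Fintype.card τ) < (H + 1) ^ (Q ^ Fintype.card τ * L)) :
    ∃ G : ((τ → Fin Q) × Fin L) → ℤ, G ≠ 0 ∧ (∀ i, |G i| ≤ H) ∧
      ∀ u : τ → ℤ, ∑ i, ((G i : ℤ) : R) * ∏ j, (((Ring.choose (u j) (i.1 j : ℕ) : ℤ) : R) *
        (((β j ^ (u j)) ^ (i.2 : ℕ) : Rˣ) : R)) = 0 := by
  classical
  have : Fintype R := Fintype.ofFinite R
  let F : (((τ → Fin Q) × Fin L) → Fin (H + 1)) → ((τ → Fin (Q + N)) → R) := fun g k =>
    ∑ i, ((g i : ℕ) : R) * ∏ j, (((Ring.choose (((k j : ℕ) : ℤ)) (i.1 j : ℕ) : ℤ) : R) *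
      (((β j ^ (((k j : ℕ) : ℤ))) ^ (i.2 : ℕ) : Rˣ) : R))
  have hcard : Fintype.card ((τ → Fin (Q + N)) → R) <
      Fintype.card (((τ → Fin Q) × Fin L) → Fin (H + 1)) := by
    rw [Fintype.card_fun, Fintype.card_fun, Fintype.card_fun, Fintype.card_prod, Fintype.card_fun,
      Fintype.card_fin, Fintype.card_fin, Fintype.card_fin, Fintype.card_fin, ← Nat.card_eq_fintype_card]
    exact hpig
  obtain ⟨g, g', hne, hgg⟩ := Fintype.exists_ne_map_eq_of_card_lt F hcard
  refine ⟨fun i => (g i : ℤ) - (g' i : ℤ), ?_, ?_, ?_⟩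
  · intro h0
    apply hne
    funext i
    have h1 := congrFun h0 i
    simp only [Pi.zero_apply] at h1
    apply Fin.ext
    omega
  · intro i
    have h1 := (g i).isLt
    have h2 := (g' i).isLt
    show |((g i : ℕ) : ℤ) - ((g' i : ℕ) : ℤ)| ≤ H
    rw [abs_le]
    constructor
    · omega
    · omega
  · intro u
    refine multi_zero (Q + N) (fun i => (((g i : ℤ) - (g' i : ℤ) : ℤ) : R))
      (fun i j x => ((Ring.choose x (i.1 j : ℕ) : ℤ) : R) *
        (((β j ^ x) ^ (i.2 : ℕ) : Rˣ) : R)) ?_ ?_ u
    · intro i j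
      have h1 : NV Q (fun x : ℤ => ((Ring.choose x (i.1 j : ℕ) : ℤ) : R)) :=
        (NV_choose (i.1 j : ℕ)).mono (i.1 j).isLt
      have h2 : NV N (fun x : ℤ => (((β j ^ x) ^ (i.2 : ℕ) : Rˣ) : R)) := by
        have h3 : ((((β j) ^ (i.2 : ℕ) : Rˣ) : R) - 1) ^ N = 0 := by
          obtain ⟨q, hq⟩ := sub_one_dvd_pow_sub_one (β j : R) (i.2 : ℕ)
          rw [Units.val_pow_eq_pow_val, hq, mul_pow, hβ, zero_mul]
        have h4 := NV_pow _ h3
        have e : (fun x : ℤ => (((β j ^ x) ^ (i.2 : ℕ) : Rˣ) : R)) =
            fun x : ℤ => (((β j ^ (i.2 : ℕ)) ^ x : Rˣ) : R) := by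
          funext x
          congr 1
          rw [← zpow_natCast, ← zpow_natCast, zpow_comm]
        rw [e]
        exact h4
      exact h1.mul h2
    · intro k
      have h1 := congrFun hgg k
      simp only [F] at h1
      rw [← sub_eq_zero, ← Finset.sum_sub_distrib] at h1
      rw [← h1]
      refine Finset.sum_congr rfl fun i _ => ?_
      push_cast
      ring

end several

end Run7.h197.PB
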