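import Pool.Agent.Run7.h197.PB.Weak

/-!
p-adic linear forms in logarithms, sharp in one height: the induction.
-/

set_option autoImplicit false

namespace Run7.h197.PB

open Finset NumberField IsDedekindDomain Run7.h197.BK
open Pool.Agent.Y913.Bk (PolyB)

lemma PolyB.sq {f : ℕ → ℕ} (hf : PolyB f) : PolyB (fun g => f (g * g)) := by
  obtain ⟨E, g1, h⟩ := hf
  refine ⟨2 * E, g1 + 1, fun g hg => ?_⟩
  have h1 : g1 ≤ g * g := by nlinarith
  refine (h (g * g) h1).trans ?_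
  rw [← pow_two, ← pow_mul]

lemma prod_zpow_sum {G ι : Type} [CommGroup G] (s : Finset ι) (x : G) (f : ι → ℤ) :
    ∏ i ∈ s, x ^ (f i) = x ^ (∑ i ∈ s, f i) := by
  classical
  induction s using Finset.induction_on with
  | empty => simp
  | insert i s hi ih => rw [Finset.prod_insert hi, Finset.sum_insert hi, ih, zpow_add]

/-- the exponent of a prime in a product -/
lemma pow_le_of_dvd {p r T g : ℕ} (hp : p.Prime) {q b p0 d : ℤ} (hq0 : q ≠ 0) (hb0 : b ≠ 0)
    (hrel : q * b = p0 * d) (hqT : |q| ≤ (T : ℤ))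
    (hg : ∀ t : ℕ, ((p ^ t : ℕ) : ℤ) ∣ b → p ^ t ≤ g) (hr : ((p ^ r : ℕ) : ℤ) ∣ p0) :
    p ^ r ≤ g * T := by
  obtain ⟨s, n1, hn1, hq⟩ := Nat.exists_eq_pow_mul_and_not_dvd (Int.natAbs_ne_zero.2 hq0) p
    hp.ne_one
  obtain ⟨t, n2, hn2, hb⟩ := Nat.exists_eq_pow_mul_and_not_dvd (Int.natAbs_ne_zero.2 hb0) p
    hp.ne_one
  have h1 : p ^ t ≤ g := by
    apply hg
    rw [Int.natCast_dvd, hb]
    exact Dvd.intro _ rfl
  have h2 : p ^ s ≤ T := by
    have h3 : q.natAbs ≤ T := by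
      rw [← Int.natCast_natAbs] at hqT
      exact_mod_cast hqT
    refine le_trans (Nat.le_of_dvd (Nat.pos_of_ne_zero (Int.natAbs_ne_zero.2 hq0)) ?_) h3
    rw [hq]
    exact Dvd.intro _ rfl
  have h4 : p ^ r ∣ p ^ (s + t) * (n1 * n2) := by
    have h5 : ((p ^ r : ℕ) : ℤ) ∣ q * b := by
      rw [hrel]
      exact Dvd.dvd.mul_right hr _
    rw [Int.natCast_dvd, Int.natAbs_mul, hq, hb] at h5
    have e : p ^ s * n1 * (p ^ t * n2) = p ^ (s + t) * (n1 * n2) := by rw [pow_add]; ring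
    rwa [e] at h5
  have h6 : r ≤ s + t := by
    by_contra hcon
    have h7 : p ^ (s + t + 1) ∣ p ^ (s + t) * (n1 * n2) :=
      (pow_dvd_pow _ (by omega)).trans h4
    rw [pow_succ] at h7
    have h8 := Nat.dvd_of_mul_dvd_mul_left (Nat.pow_pos hp.pos) h7
    rcases hp.dvd_mul.1 h8 with h9 | h9
    · exact hn1 h9
    · exact hn2 h9
  calc p ^ r ≤ p ^ (s + t) := Nat.pow_le_pow_right hp.pos h6
    _ = p ^ t * p ^ s := by rw [pow_add, mul_comm]
    _ ≤ g * T := Nat.mul_le_mul h1 h2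

variable {K : Type} [Field K] [NumberField K]

/-- taking roots in the unipotent units -/
theorem exists_beta {m : ℕ} (v : HeightOneSpectrum (𝓞 K)) {p : ℕ} (hp : p.Prime)
    (hpv : (p : 𝓞 K) ∈ v.asIdeal) (a c : Option (Fin m) → 𝓞 K) (b : Option (Fin m) → ℤ)
    (hac : ∀ j, a j - c j ∈ v.asIdeal) (N : ℕ)
    (ua uc : Option (Fin m) → (𝓞 K ⧸ v.asIdeal ^ N)ˣ)
    (hua : ∀ j, ((ua j : (𝓞 K ⧸ v.asIdeal ^ N)ˣ) : 𝓞 K ⧸ v.asIdeal ^ N) =
      Ideal.Quotient.mk (v.asIdeal ^ N) (a j))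
    (huc : ∀ j, ((uc j : (𝓞 K ⧸ v.asIdeal ^ N)ˣ) : 𝓞 K ⧸ v.asIdeal ^ N) =
      Ideal.Quotient.mk (v.asIdeal ^ N) (c j)) (hprod : ∏ j, (ua j / uc j) ^ (b j) = 1)
    (r : ℕ) (b' : ℤ) (hb : b none = ((p ^ r : ℕ) : ℤ) * b') (hb' : ¬ (p : ℤ) ∣ b') :
    ∃ β : Fin m → (𝓞 K ⧸ v.asIdeal ^ N)ˣ,
      (∀ i, (((β i : (𝓞 K ⧸ v.asIdeal ^ N)ˣ) : 𝓞 K ⧸ v.asIdeal ^ N) - 1) ^ N = 0) ∧
      (∀ i, (ua (some i)) ^ p ^ r / (uc (some i)) ^ p ^ r = β i ^ (b none)) ∧
      (ua none) ^ p ^ r / (uc none) ^ p ^ r = ∏ i, β i ^ (-(b (some i))) := by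
  classical
  obtain ⟨x, hx⟩ : ∃ x : Option (Fin m) → (𝓞 K ⧸ v.asIdeal ^ N)ˣ, ∀ j, x j = ua j / uc j :=
    ⟨fun j => ua j / uc j, fun _ => rfl⟩
  have hxuc : ∀ j, x j * uc j = ua j := fun j => by rw [hx, div_mul_cancel]
  -- the order of `x j`
  have hord : ∀ j, x j ^ p ^ N = 1 := by
    intro j
    rw [hx, div_pow, div_eq_one, Units.ext_iff, Units.val_pow_eq_pow_val,
      Units.val_pow_eq_pow_val, hua, huc, ← map_pow, ← map_pow, Ideal.Quotient.eq]
    exact Ideal.pow_le_pow_right (Nat.le_succ N) (pow_p_mem v hpv (hac j) N)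
  have hnil : ∀ j, (((x j : (𝓞 K ⧸ v.asIdeal ^ N)ˣ) : 𝓞 K ⧸ v.asIdeal ^ N) - 1) ^ N = 0 := by
    intro j
    have h1 : (((x j : (𝓞 K ⧸ v.asIdeal ^ N)ˣ) : 𝓞 K ⧸ v.asIdeal ^ N) - 1) *
        ((uc j : (𝓞 K ⧸ v.asIdeal ^ N)ˣ) : 𝓞 K ⧸ v.asIdeal ^ N) =
        Ideal.Quotient.mk (v.asIdeal ^ N) (a j - c j) := by
      rw [sub_mul, one_mul, ← Units.val_mul, hxuc, hua, huc, map_sub]
    have h2 : ((((x j : (𝓞 K ⧸ v.asIdeal ^ N)ˣ) : 𝓞 K ⧸ v.asIdeal ^ N) - 1) *
        ((uc j : (𝓞 K ⧸ v.asIdeal ^ N)ˣ) : 𝓞 K ⧸ v.asIdeal ^ N)) ^ N = 0 := by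
      rw [h1, ← map_pow, Ideal.Quotient.eq_zero_iff_mem]
      exact Ideal.pow_mem_pow (hac j) N
    rw [mul_pow] at h2
    exact (Units.mul_left_eq_zero ((uc j) ^ N)).1 (by rw [Units.val_pow_eq_pow_val]; exact h2)
  -- the inverse of `b'`
  have hpN : (p ^ N : ℤ) ≠ 0 := pow_ne_zero _ (by exact_mod_cast hp.ne_zero)
  have hcop : IsCoprime b' ((p : ℤ) ^ N) := by
    apply IsCoprime.pow_right
    rw [isCoprime_comm]
    exact (Prime.coprime_iff_not_dvd (Nat.prime_iff_prime_int.1 hp)).2 hb'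
  obtain ⟨y, z, hyz⟩ := hcop
  obtain ⟨w, hw⟩ : ∃ w : ℕ, (w : ℤ) = y % (p : ℤ) ^ N :=
    ⟨(y % (p : ℤ) ^ N).toNat, Int.toNat_of_nonneg (Int.emod_nonneg _ hpN)⟩
  obtain ⟨t, ht⟩ : ∃ t : ℤ, (w : ℤ) * b' = 1 + t * (p : ℤ) ^ N := by
    refine ⟨-(z + (y / (p : ℤ) ^ N) * b'), ?_⟩
    have h1 := Int.emod_add_mul_ediv y ((p : ℤ) ^ N)
    rw [← hw] at h1
    linear_combination hyz + b' * h1
  have hpow : ∀ j, (x j ^ w) ^ (b none) = x j ^ p ^ r := by
    intro j
    rw [← zpow_natCast, ← zpow_mul, ← zpow_natCast (x j)]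
    have e1 : (w : ℤ) * b none = ((p ^ r : ℕ) : ℤ) + (((p ^ N : ℕ) : ℤ)) * (t * (p : ℤ) ^ r) := by
      rw [hb]
      push_cast
      linear_combination (p : ℤ) ^ r * ht
    rw [e1, zpow_add, zpow_mul, zpow_natCast (x j) (p ^ N), hord, one_zpow, mul_one]
  refine ⟨fun i => x (some i) ^ w, ?_, ?_, ?_⟩
  · intro i
    obtain ⟨q, hq⟩ := sub_one_dvd_pow_sub_one
      ((x (some i) : (𝓞 K ⧸ v.asIdeal ^ N)ˣ) : 𝓞 K ⧸ v.asIdeal ^ N) w
    rw [Units.val_pow_eq_pow_val, hq, mul_pow, hnil, zero_mul]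
  · intro i
    rw [hpow, hx, div_pow]
  · have h1 : x none ^ (b none) = ∏ i : Fin m, x (some i) ^ (-(b (some i))) := by
      have h2 : (∏ j, x j ^ (b j)) = 1 := by
        rw [← hprod]
        exact Finset.prod_congr rfl fun j _ => by rw [hx]
      rw [Fintype.prod_option] at h2
      rw [eq_comm, ← mul_right_inj (∏ i : Fin m, x (some i) ^ (b (some i))), mul_comm _ (x none ^ b none), h2,
        ← Finset.prod_mul_distrib]
      apply Finset.prod_eq_one
      intro i _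
      rw [← zpow_add, add_neg_cancel, zpow_zero]
    have h3 : (x none ^ w) ^ (b none) = ∏ i : Fin m, (x (some i) ^ w) ^ (-(b (some i))) := by
      have h4 := congrArg (fun y => y ^ w) h1
      rw [← Finset.prod_pow] at h4
      rw [← zpow_natCast, zpow_comm, zpow_natCast, h4]
      refine Finset.prod_congr rfl fun i _ => ?_
      rw [← zpow_natCast, ← zpow_natCast, zpow_comm]
    rw [← h3, hpow, hx, div_pow]

/-- **the inductive step** -/
theorem PB_step (m : ℕ) (ih : ∀ r < m, ∃ κ g0, PBd K r κ g0) : ∃ κ g0, PBd K m κ g0 := by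
  classical
  obtain ⟨D, hD⟩ : ∃ D, D = Module.finrank ℚ K := ⟨_, rfl⟩
  -- common constants for the smaller cases
  choose! κ0 g00 hWB0 using ih
  obtain ⟨κ', hκ'⟩ : ∃ κ', κ' = ∑ r ∈ range m, κ0 r := ⟨_, rfl⟩
  obtain ⟨g0', hg0'⟩ : ∃ g0', g0' = ∑ r ∈ range m, g00 r + 1 := ⟨_, rfl⟩
  have hWB : ∀ r < m, PBd K r κ' g0' := by
    intro r hr
    apply (hWB0 r hr).mono
    · rw [hκ']
      exact Finset.single_le_sum (fun i _ => Nat.zero_le _) (Finset.mem_range.mpr hr)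
    · rw [hg0']
      exact (Finset.single_le_sum (f := g00) (fun i _ => Nat.zero_le _)
        (Finset.mem_range.mpr hr)).trans (Nat.le_succ _)
    · omega
  -- growth of the parameters
  obtain ⟨E, g1, hE⟩ := (PolyB.sq (polyB_DP D m)).add (PolyB.id.mul
    (((PolyB.const ((m + 1) * m)).mul
      (((PolyB.const 2).mul (PolyB.sq (polyB_CP D m))).add ((PolyB.id.mul PolyB.id).mul
        (PolyB.sq (polyB_SP D m))))).add
      ((PolyB.sq (polyB_SP D m)).mul (((PolyB.const 2).mul (PolyB.sq (polyB_CP D m))).pow m))))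
  obtain ⟨g2, hg2⟩ := (((PolyB.const (m + 1)).mul (PolyB.id.add (PolyB.const 1))).add
    (PolyB.const 1)).le_two_pow
  refine ⟨E * (κ' + 1) + 1, max (max g1 g2) (max g0' 2), ?_⟩
  intro g hg H hH v hv a c b hcv hac ha hc hb0 hbg hb hpp hnt hmem
  have hgg1 : g1 ≤ g := (le_max_left _ _).trans ((le_max_left _ _).trans hg)
  have hgg2 : g2 ≤ g := (le_max_right _ _).trans ((le_max_left _ _).trans hg)
  have hgg0 : g0' ≤ g := (le_max_left _ _).trans ((le_max_right _ _).trans hg)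
  have hgge : 2 ≤ g := (le_max_right _ _).trans ((le_max_right _ _).trans hg)
  have hggsq : g ≤ g * g := Nat.le_mul_of_pos_left _ (by omega)
  have hE' := hE g hgg1
  have hbig1 := hg2 (g * g) (hgg2.trans hggsq)
  simp only at hE' hbig1
  obtain ⟨c1, hc1⟩ : ∃ c1, c1 = CP D m (g * g) := ⟨_, rfl⟩
  obtain ⟨S, hS⟩ : ∃ S, S = SP D m (g * g) := ⟨_, rfl⟩
  have hc11 : 1 ≤ c1 := hc1 ▸ CP_pos D m (g * g)
  rw [← hc1, ← hS] at hE'
  obtain ⟨R, hR⟩ : ∃ R, R = m * (2 * c1 + g * g * S) := ⟨_, rfl⟩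
  obtain ⟨T, hT⟩ : ∃ T, T = S * (2 * c1) ^ m := ⟨_, rfl⟩
  obtain ⟨g', hg'⟩ : ∃ g', g' = g * ((m + 1) * R + T) := ⟨_, rfl⟩
  have hgE0 : g * ((m + 1) * m * (2 * c1 + g * g * S) + S * (2 * c1) ^ m) = g' := by
    rw [hg', hR, hT]; ring
  rw [hgE0] at hE'
  have hd2 : DP D m (g * g) ≤ g ^ E := le_trans (Nat.le_add_right _ _) hE'
  have hgE : g' ≤ g ^ E := le_trans (Nat.le_add_left _ _) hE'
  have hfin1 : DP D m (g * g) ≤ g ^ (E * (κ' + 1) + 1) := by
    refine hd2.trans (Nat.pow_le_pow_right (by omega) ?_)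
    nlinarith [Nat.zero_le (E * κ')]
  have hfin2 : g' ^ κ' ≤ g ^ (E * (κ' + 1) + 1) := by
    calc g' ^ κ' ≤ (g ^ E) ^ κ' := Nat.pow_le_pow_left hgE _
      _ = g ^ (E * κ') := by rw [← pow_mul]
      _ ≤ g ^ (E * (κ' + 1) + 1) := by
        apply Nat.pow_le_pow_right (by omega)
        nlinarith [Nat.zero_le (E * κ')]
  -- nonvanishing
  have hav : ∀ j, a j ∉ v.asIdeal := by
    intro j h
    apply hcv j
    have := v.asIdeal.sub_mem h (hac j)
    rwa [sub_sub_cancel] at this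
  have ha0 : ∀ j, a j ≠ 0 := fun j h => hav j (by rw [h]; exact v.asIdeal.zero_mem)
  have hc0 : ∀ j, c j ≠ 0 := fun j h => hcv j (by rw [h]; exact v.asIdeal.zero_mem)
  -- the prime number
  obtain ⟨p, hp, hpv⟩ := exists_prime_mem v
  obtain ⟨r, b', hbb, hb'⟩ : ∃ (r : ℕ) (b' : ℤ), b none = ((p ^ r : ℕ) : ℤ) * b' ∧
      ¬ (p : ℤ) ∣ b' := by
    obtain ⟨r, n', hn', hn⟩ := Nat.exists_eq_pow_mul_and_not_dvd (Int.natAbs_ne_zero.2 hb0) p
      hp.ne_one
    have h1 : ((p ^ r : ℕ) : ℤ) ∣ b none := by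
      rw [Int.natCast_dvd, hn]
      exact Dvd.intro _ rfl
    obtain ⟨b', hb'⟩ := h1
    refine ⟨r, b', hb', ?_⟩
    rintro ⟨b'', rfl⟩
    apply hn'
    have h2 : ((p ^ (r + 1) : ℕ) : ℤ) ∣ b none := ⟨b'', by rw [hb']; push_cast; ring⟩
    rw [Int.natCast_dvd, hn, pow_succ] at h2
    exact Nat.dvd_of_mul_dvd_mul_left (Nat.pow_pos hp.pos) h2
  have hprg : p ^ r ≤ g := hpp p r hp hpv ⟨b', hbb⟩
  have hpr1 : 1 ≤ p ^ r := Nat.pow_pos hp.pos
  -- the first application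
  obtain ⟨N, hN⟩ : ∃ N, N = DP D m (g * g) * H := ⟨_, rfl⟩
  have hNle : N ≤ g ^ (E * (κ' + 1) + 1) * H := by
    rw [hN]
    exact Nat.mul_le_mul_right _ hfin1
  choose ua hua using fun j => exists_unit v N (hav j)
  choose uc huc using fun j => exists_unit v N (hcv j)
  have hprod : ∏ j, (ua j / uc j) ^ (b j) = 1 :=
    (pz_mem_iff ua uc hua huc b).1 (Ideal.pow_le_pow_right hNle hmem)
  obtain ⟨β, hβ0, hβ1, hβ2⟩ := exists_beta v hp hpv a c b hac N ua uc hua huc hprod r b' hbb hb'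
  obtain ⟨σ⟩ := (inferInstance : Nonempty (K →+* ℂ))
  have hsz : ∀ (x : Option (Fin m) → 𝓞 K), (∀ (φ : K →+* ℂ) j,
      ‖φ (x j : K)‖ ≤ 2 ^ (g * (j.elim H (fun _ => 1) : ℕ))) → ∀ (φ : K →+* ℂ) j,
      ‖φ ((x j ^ p ^ r : 𝓞 K) : K)‖ ≤ 2 ^ (g * g * (j.elim H (fun _ => 1) : ℕ)) := by
    intro x hx φ j
    have e1 : ((x j ^ p ^ r : 𝓞 K) : K) = (x j : K) ^ p ^ r := map_pow _ _ _
    rw [e1, map_pow, norm_pow]
    calc ‖φ (x j : K)‖ ^ p ^ r ≤ ((2 : ℝ) ^ (g * (j.elim H (fun _ => 1) : ℕ))) ^ p ^ r :=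
          pow_le_pow_left₀ (norm_nonneg _) (hx φ j) _
      _ = 2 ^ (g * (j.elim H (fun _ => 1) : ℕ) * p ^ r) := by rw [← pow_mul]
      _ ≤ 2 ^ (g * g * (j.elim H (fun _ => 1) : ℕ)) := by
          apply pow_le_pow_right₀ (by norm_num)
          calc g * (j.elim H (fun _ => 1) : ℕ) * p ^ r ≤ g * (j.elim H (fun _ => 1) : ℕ) * g :=
                Nat.mul_le_mul_left _ hprg
            _ = _ := by ring
  have hdich := dichotomy (τ := Fin m) (g * g) H (by omega) hH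
    (by rw [Fintype.card_fin]; exact hbig1) v
    (hv.trans (Nat.pow_le_pow_right (by norm_num) hggsq)) σ
    (fun j => a j ^ p ^ r) (fun j => c j ^ p ^ r)
    (fun j => pow_ne_zero _ (ha0 j)) (fun j => pow_ne_zero _ (hc0 j)) (hsz a ha) (hsz c hc) b hb0
    (hbg.trans (by
      have h1 : 2 ^ g ≤ 2 ^ (g * g) := Nat.pow_le_pow_right (by norm_num) hggsq
      exact_mod_cast h1))
    (fun i => (hb i).trans (mul_le_mul_of_nonneg_right (by exact_mod_cast hggsq) (abs_nonneg _)))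
    (by
      intro M hM h
      apply hnt (p ^ r * M) (Nat.mul_pos hpr1 hM)
      apply σ.injective
      rw [map_one, map_pow, map_prod, pow_mul, ← h]
      congr 1
      rw [← Finset.prod_pow]
      refine Finset.prod_congr rfl fun j _ => ?_
      have e1 : ((a j ^ p ^ r : 𝓞 K) : K) = (a j : K) ^ p ^ r := map_pow _ _ _
      have e2 : ((c j ^ p ^ r : 𝓞 K) : K) = (c j : K) ^ p ^ r := map_pow _ _ _
      rw [map_zpow₀, map_div₀, e1, e2, map_pow, map_pow, ← div_pow, ← zpow_natCast,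
        ← zpow_natCast, zpow_comm])
    (N := N) (by rw [Fintype.card_fin, ← hD]; exact hN)
    (fun j => ua j ^ p ^ r) (fun j => uc j ^ p ^ r)
    (fun j => by rw [Units.val_pow_eq_pow_val, hua, map_pow])
    (fun j => by rw [Units.val_pow_eq_pow_val, huc, map_pow]) β hβ0 hβ1 hβ2
  rw [Fintype.card_fin, ← hD, ← hc1, ← hS, ← hR] at hdich
  obtain ⟨ρ, d, vv, q, p0, pp, hρm, hq0, hp0, hrel, hvn, hdR, hvR, hqb, hp0b, hpb⟩ := hdich
  have hm1 : 1 ≤ m := by omega
  have hρ : ρ < m := by omega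
  -- sizes
  have hgS : 2 * c1 + g * g * S ≤ R := by
    rw [hR]
    exact Nat.le_mul_of_pos_left _ hm1
  have hR1 : 1 ≤ R := by omega
  have hgg' : g ≤ g' := by
    rw [hg']
    apply Nat.le_mul_of_pos_right
    have : 1 ≤ (m + 1) * R := Nat.mul_pos (by omega) hR1
    omega
  have hgRg' : g * ((m + 1) * R) ≤ g' := by
    rw [hg']
    exact Nat.mul_le_mul_left _ (Nat.le_add_right _ _)
  have hgTg' : g * T ≤ g' := by
    rw [hg']
    exact Nat.mul_le_mul_left _ (Nat.le_add_left _ _)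
  have hRg' : R ≤ g' := by
    calc R ≤ (m + 1) * R := Nat.le_mul_of_pos_left _ (by omega)
      _ ≤ g * ((m + 1) * R) := Nat.le_mul_of_pos_left _ (by omega)
      _ ≤ g' := hgRg'
  have h2c1 : (2 * c1) ^ ρ ≤ (2 * c1) ^ m := Nat.pow_le_pow_right (by omega) hρ.le
  have hS1 : 1 ≤ S := by rw [hS]; unfold SP; omega
  have hqT : |q| ≤ (T : ℤ) := by
    refine hqb.trans ?_
    rw [hT]
    exact_mod_cast Nat.mul_le_mul_left S h2c1
  have hT2 : (2 * c1) ^ m ≤ T := by
    rw [hT]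
    exact Nat.le_mul_of_pos_left _ hS1
  have hp0g' : |p0| ≤ ((2 ^ g' : ℕ) : ℤ) := by
    refine hp0b.trans ?_
    calc |b none| * (((2 * c1) ^ ρ : ℕ) : ℤ) ≤ 2 ^ g * ((2 ^ T : ℕ) : ℤ) := by
          have h1 : (((2 * c1) ^ ρ : ℕ) : ℤ) ≤ ((2 ^ T : ℕ) : ℤ) := by
            have h2 : (2 * c1) ^ ρ ≤ 2 ^ T :=
              (h2c1.trans hT2).trans Nat.lt_two_pow_self.le
            exact_mod_cast h2
          exact mul_le_mul hbg h1 (by positivity) (by positivity)
      _ = ((2 ^ (g + T) : ℕ) : ℤ) := by push_cast; rw [pow_add]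
      _ ≤ ((2 ^ g' : ℕ) : ℤ) := by
          have h1 : 2 ^ (g + T) ≤ 2 ^ g' := by
            apply Nat.pow_le_pow_right (by norm_num)
            rw [hg', Nat.mul_add]
            have h2 : g ≤ g * ((m + 1) * R) :=
              Nat.le_mul_of_pos_right _ (Nat.mul_pos (by omega) hR1)
            have h3 : T ≤ g * T := Nat.le_mul_of_pos_left _ (by omega)
            omega
          exact_mod_cast h1
  -- the new numbers
  let w : Option (Fin ρ) → Option (Fin m) → ℤ := fun i => i.elim d vv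
  have hwR : ∀ i j, (w i j).natAbs ≤ R := by
    intro i j
    have h1 : |w i j| ≤ (R : ℤ) := by
      rcases i with _ | l
      · exact hdR j
      · exact hvR l j
    rw [← Int.natCast_natAbs] at h1
    exact_mod_cast h1
  have hsize : ∀ i, ∏ j, ((2 : ℝ) ^ (g * (j.elim H (fun _ => 1) : ℕ))) ^ (w i j).natAbs ≤
      2 ^ (g' * (i.elim H (fun _ => 1) : ℕ)) := by
    intro i
    rw [Fintype.prod_option]
    simp only [Option.elim_none, Option.elim_some, mul_one]
    have h1 : ∏ k : Fin m, ((2 : ℝ) ^ g) ^ (w i (some k)).natAbs ≤ 2 ^ (g * R * m) := by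
      calc ∏ k : Fin m, ((2 : ℝ) ^ g) ^ (w i (some k)).natAbs ≤ ∏ _k : Fin m, ((2 : ℝ) ^ g) ^ R := by
            apply Finset.prod_le_prod (fun _ _ => by positivity)
            intro k _
            exact pow_le_pow_right₀ (one_le_pow₀ (by norm_num)) (hwR i _)
        _ = _ := by
            rw [Finset.prod_const, Finset.card_univ, Fintype.card_fin, ← pow_mul, ← pow_mul,
              mul_assoc]
    rcases i with _ | l
    · simp only [Option.elim_none]
      have h2 : ((2 : ℝ) ^ (g * H)) ^ (w none none).natAbs ≤ 2 ^ (g * H * R) := by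
        rw [← pow_mul]
        exact pow_le_pow_right₀ (by norm_num) (Nat.mul_le_mul_left _ (hwR none none))
      calc _ ≤ (2 : ℝ) ^ (g * H * R) * 2 ^ (g * R * m) :=
            mul_le_mul h2 h1 (by positivity) (by positivity)
        _ = 2 ^ (g * H * R + g * R * m) := by rw [← pow_add]
        _ ≤ 2 ^ (g' * H) := by
            apply pow_le_pow_right₀ (by norm_num)
            have h3 : g * R * m ≤ g * R * m * H := Nat.le_mul_of_pos_right _ hH
            calc g * H * R + g * R * m ≤ g * H * R + g * R * m * H := by omega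
              _ = g * ((m + 1) * R) * H := by ring
              _ ≤ g' * H := Nat.mul_le_mul_right _ hgRg'
    · simp only [Option.elim_some, mul_one]
      have h2 : (w (some l) none) = 0 := hvn l
      rw [h2, Int.natAbs_zero, pow_zero, one_mul]
      refine h1.trans (pow_le_pow_right₀ (by norm_num) ?_)
      calc g * R * m = g * (m * R) := by ring
        _ ≤ g * ((m + 1) * R) := by
            apply Nat.mul_le_mul_left
            apply Nat.mul_le_mul_right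
            omega
        _ ≤ g' := hgRg'
  let bb : Option (Fin ρ) → ℤ := fun i => i.elim p0 pp
  -- the product for the new numbers
  have hexp : ∀ {G : Type} [CommGroup G] (x : Option (Fin m) → G),
      ∏ i, (∏ j, x j ^ (w i j)) ^ (bb i) = (∏ j, x j ^ (b j)) ^ q := by
    intro G _ x
    have e1 : ∀ i, (∏ j, x j ^ (w i j)) ^ (bb i) = ∏ j, x j ^ (w i j * bb i) := by
      intro i
      rw [← Finset.prod_zpow]
      exact Finset.prod_congr rfl fun j _ => by rw [zpow_mul]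
    rw [Finset.prod_congr rfl fun i _ => e1 i, Finset.prod_comm, ← Finset.prod_zpow]
    refine Finset.prod_congr rfl fun j _ => ?_
    rw [prod_zpow_sum, ← zpow_mul]
    congr 1
    rw [mul_comm (b j) q, hrel j, Fintype.sum_option]
    simp only [w, bb, Option.elim_none, Option.elim_some]
    congr 1
    · ring
    · exact Finset.sum_congr rfl fun l _ => by ring
  have hrel0 : q * b none = p0 * d none := by
    have h1 := hrel none
    rw [Finset.sum_eq_zero (fun l _ => by rw [hvn l, mul_zero]), add_zero] at h1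
    exact h1
  have hmain := hWB ρ hρ g' (hgg0.trans hgg') H hH v
    (hv.trans (Nat.pow_le_pow_right (by norm_num) hgg'))
    (fun i => pz a c (w i)) (fun i => pz c a (w i)) bb
    (fun i => pz_notMem v hcv hav (w i))
    (by
      intro i
      show pz a c (w i) - pz c a (w i) ∈ v.asIdeal
      rw [← Ideal.Quotient.eq_zero_iff_mem, map_sub, sub_eq_zero]
      unfold pz
      rw [map_prod, map_prod]
      refine Finset.prod_congr rfl fun j _ => ?_
      rw [map_pow, map_pow]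
      have h1 : Ideal.Quotient.mk v.asIdeal (a j) = Ideal.Quotient.mk v.asIdeal (c j) := by
        rw [Ideal.Quotient.eq]
        exact hac j
      split_ifs
      · rw [h1]
      · rw [h1])
    (fun φ i => (pz_bound ha hc (w i) φ).trans (hsize i))
    (fun φ i => (pz_bound hc ha (w i) φ).trans (hsize i))
    hp0 (by exact_mod_cast hp0g')
    (by
      intro l
      refine (hpb l).trans ?_
      have h1 : ((2 * c1 + g * g * S : ℕ) : ℤ) ≤ (g' : ℤ) := by
        exact_mod_cast hgS.trans hRg'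
      exact mul_le_mul_of_nonneg_right h1 (abs_nonneg _))
    (by
      intro p' r' hp' hpv' hd'
      exact (pow_le_of_dvd hp' hq0 hb0 hrel0 hqT (fun t ht => hpp p' t hp' hpv' ht) hd').trans
        hgTg')
    (by
      intro M hM h
      have hx0 : ∀ j, (a j : K) / (c j : K) ≠ 0 := fun j => div_ne_zero
        (RingOfIntegers.coe_ne_zero_iff.mpr (ha0 j)) (RingOfIntegers.coe_ne_zero_iff.mpr (hc0 j))
      have e1 := congrArg (fun y : Kˣ => (y : K)) (hexp (fun j => Units.mk0 _ (hx0 j)))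
      simp only [Units.coe_prod, Units.val_zpow_eq_zpow_val, Units.val_mk0] at e1
      have e2 : ∏ i, (((pz a c (w i) : 𝓞 K) : K) / ((pz c a (w i) : 𝓞 K) : K)) ^ (bb i) =
          (∏ j, ((a j : K) / (c j : K)) ^ (b j)) ^ q := by
        rw [← e1]
        refine Finset.prod_congr rfl fun i _ => ?_
        congr 1
        exact pz_div (algebraMap (𝓞 K) K) a c (w i)
      rw [e2] at h
      apply hnt (q.natAbs * M) (Nat.mul_pos (Int.natAbs_pos.mpr hq0) hM)
      rw [pow_mul]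
      rcases Int.natAbs_eq q with h1 | h1
      · rw [h1, zpow_natCast] at h
        exact h
      · rw [h1, zpow_neg, zpow_natCast, inv_pow, inv_eq_one] at h
        exact h)
  apply hmain
  -- the other congruence
  have hN2 : g' ^ κ' * H ≤ g ^ (E * (κ' + 1) + 1) * H := Nat.mul_le_mul_right _ hfin2
  have hmem2 := Ideal.pow_le_pow_right (I := v.asIdeal) hN2 hmem
  obtain ⟨N₂, hN₂⟩ : ∃ N₂, N₂ = g' ^ κ' * H := ⟨_, rfl⟩
  rw [← hN₂] at hmem2 ⊢
  choose va hva using fun j => exists_unit v N₂ (hav j)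
  choose vc hvc using fun j => exists_unit v N₂ (hcv j)
  have hprod2 : ∏ j, (va j / vc j) ^ (b j) = 1 := (pz_mem_iff va vc hva hvc b).1 hmem2
  choose X Y hX hY hXY using fun i => pz_quot va vc hva hvc (w i)
  rw [pz_mem_iff (a := fun i => pz a c (w i)) (c := fun i => pz c a (w i)) X Y hX hY bb]
  have e3 := hexp (fun j => va j / vc j)
  rw [hprod2, one_zpow] at e3
  rw [← e3]
  exact Finset.prod_congr rfl fun i _ => by rw [hXY i]

variable (K) in
/-- **p-adic lower bound for linear forms in logarithms, sharp in one height** -/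
theorem PB_all (m : ℕ) : ∃ κ g0, PBd K m κ g0 := by
  induction m using Nat.strong_induction_on with
  | _ m ih => exact PB_step m (fun r hr => ih r hr)

end Run7.h197.PB
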