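import Pool.Agent.Run7.h197.PB.Vanish
import Pool.Agent.Run7.h197.BK.Step

/-!
p-adic linear forms in logarithms, sharp in one height: choice of the parameters.
-/

set_option autoImplicit false

namespace Run7.h197.PB

open Finset NumberField IsDedekindDomain Run7.h197.BK

/-- parameters -/
def LP (D m g : ℕ) : ℕ := g * EE D * MM D m g ^ m + 1
/-- parameters -/
def CP (D m g : ℕ) : ℕ := 2 ^ ((m + 2) * (m + 1)) * LP D m g ^ (m + 1)
/-- parameters -/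
def SP (D m g : ℕ) : ℕ := 2 * CP D m g + 1
/-- parameters -/
def DP (D m g : ℕ) : ℕ := EE D * (8 * (m + 1) ^ 2 * g ^ 2) * (LP D m g * SP D m g)

lemma CP_pos (D m g : ℕ) : 1 ≤ CP D m g := by
  unfold CP
  have h1 : 1 ≤ LP D m g ^ (m + 1) := Nat.one_le_pow _ _ (by unfold LP; omega)
  have h2 : 1 ≤ 2 ^ ((m + 2) * (m + 1)) := Nat.one_le_two_pow
  exact Nat.mul_pos h2 h1

lemma arith1 (m Y : ℕ) : 4 * Y * m ≤ 8 * (m + 1) ^ 2 * Y := by
  have h : 4 * m ≤ 8 * (m + 1) ^ 2 := by nlinarith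
  calc 4 * Y * m = 4 * m * Y := by ring
    _ ≤ 8 * (m + 1) ^ 2 * Y := Nat.mul_le_mul_right _ h

lemma arith2 (m Y : ℕ) : Y * m + Y ≤ 8 * (m + 1) ^ 2 * Y := by
  have h : m + 1 ≤ 8 * (m + 1) ^ 2 := by nlinarith
  calc Y * m + Y = (m + 1) * Y := by ring
    _ ≤ 8 * (m + 1) ^ 2 * Y := Nat.mul_le_mul_right _ h

lemma arith3 (m Y : ℕ) : (m + 1) ^ 2 * Y ≤ 8 * (m + 1) ^ 2 * Y :=
  Nat.mul_le_mul_right _ (Nat.le_mul_of_pos_left _ (by norm_num))

variable {K : Type} [Field K] [NumberField K]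

/-- the number of elements of the residue ring -/
theorem card_quot (v : HeightOneSpectrum (𝓞 K)) (N : ℕ) :
    Finite (𝓞 K ⧸ v.asIdeal ^ N) ∧
      Nat.card (𝓞 K ⧸ v.asIdeal ^ N) = Ideal.absNorm v.asIdeal ^ N := by
  have h1 : Nat.card (𝓞 K ⧸ v.asIdeal ^ N) = Ideal.absNorm v.asIdeal ^ N := by
    rw [← map_pow, Ideal.absNorm_apply, Submodule.cardQuot_apply]
  refine ⟨?_, h1⟩
  apply Nat.finite_of_card_ne_zero
  rw [h1]
  apply pow_ne_zero
  rw [Ne, Ideal.absNorm_eq_zero_iff]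
  exact v.ne_bot

/-- **the dichotomy** -/
theorem dichotomy {τ : Type} [Fintype τ] [DecidableEq τ] (g H : ℕ) (hg : 1 ≤ g) (hH : 1 ≤ H)
    (hbig1 : (Fintype.card τ + 1) * (g + 1) + 1 ≤ 2 ^ g)
    (v : HeightOneSpectrum (𝓞 K)) (hv : Ideal.absNorm v.asIdeal ≤ 2 ^ g)
    (σ : K →+* ℂ) (a c : Option τ → 𝓞 K) (ha0 : ∀ j, a j ≠ 0) (hc0 : ∀ j, c j ≠ 0)
    (ha : ∀ (φ : K →+* ℂ) j, ‖φ (a j : K)‖ ≤ 2 ^ (g * (j.elim H (fun _ => 1) : ℕ)))
    (hc : ∀ (φ : K →+* ℂ) j, ‖φ (c j : K)‖ ≤ 2 ^ (g * (j.elim H (fun _ => 1) : ℕ)))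
    (b : Option τ → ℤ) (hb0 : b none ≠ 0) (hbg : |b none| ≤ 2 ^ g)
    (hb : ∀ i : τ, |b (some i)| ≤ g * |b none|)
    (hnt : ∀ N : ℕ, 1 ≤ N → (∏ j, (σ (a j : K) / σ (c j : K)) ^ (b j)) ^ N ≠ 1)
    {N : ℕ} (hN : N = DP (Module.finrank ℚ K) (Fintype.card τ) g * H)
    (xa xc : Option τ → (𝓞 K ⧸ v.asIdeal ^ N)ˣ)
    (hxa : ∀ j, ((xa j : (𝓞 K ⧸ v.asIdeal ^ N)ˣ) : 𝓞 K ⧸ v.asIdeal ^ N) =
      Ideal.Quotient.mk (v.asIdeal ^ N) (a j))
    (hxc : ∀ j, ((xc j : (𝓞 K ⧸ v.asIdeal ^ N)ˣ) : 𝓞 K ⧸ v.asIdeal ^ N) =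
      Ideal.Quotient.mk (v.asIdeal ^ N) (c j))
    (β : τ → (𝓞 K ⧸ v.asIdeal ^ N)ˣ)
    (hβ : ∀ i, (((β i : (𝓞 K ⧸ v.asIdeal ^ N)ˣ) : 𝓞 K ⧸ v.asIdeal ^ N) - 1) ^ N = 0)
    (hβ1 : ∀ i, xa (some i) / xc (some i) = β i ^ (b none))
    (hβ2 : xa none / xc none = ∏ i, β i ^ (-(b (some i)))) :
    ∃ (ρ : ℕ) (d : Option τ → ℤ) (v : Fin ρ → Option τ → ℤ) (q p0 : ℤ) (p : Fin ρ → ℤ),
      ρ + 1 ≤ Fintype.card τ ∧
      q ≠ 0 ∧ p0 ≠ 0 ∧ (∀ j, q * b j = p0 * d j + ∑ l, p l * v l j) ∧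
      (∀ l, v l none = 0) ∧
      (∀ j, |d j| ≤ ((Fintype.card τ * (2 * CP (Module.finrank ℚ K) (Fintype.card τ) g +
        g * SP (Module.finrank ℚ K) (Fintype.card τ) g) : ℕ) : ℤ)) ∧
      (∀ l j, |v l j| ≤ ((Fintype.card τ * (2 * CP (Module.finrank ℚ K) (Fintype.card τ) g +
        g * SP (Module.finrank ℚ K) (Fintype.card τ) g) : ℕ) : ℤ)) ∧
      |q| ≤ ((SP (Module.finrank ℚ K) (Fintype.card τ) g *
        (2 * CP (Module.finrank ℚ K) (Fintype.card τ) g) ^ ρ : ℕ) : ℤ) ∧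
      |p0| ≤ |b none| * ((2 * CP (Module.finrank ℚ K) (Fintype.card τ) g) ^ ρ : ℕ) ∧
      ∀ l, |p l| ≤ ((2 * CP (Module.finrank ℚ K) (Fintype.card τ) g +
        g * SP (Module.finrank ℚ K) (Fintype.card τ) g : ℕ) : ℤ) * |p0| := by
  classical
  obtain ⟨D, hD⟩ : ∃ D, D = Module.finrank ℚ K := ⟨_, rfl⟩
  obtain ⟨m, hm⟩ : ∃ m, m = Fintype.card τ := ⟨_, rfl⟩
  have hD1 : 1 ≤ D := by
    rw [hD]
    exact Module.finrank_pos
  rw [← hD, ← hm] at hN ⊢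
  rw [← hm] at hbig1
  obtain ⟨L, hLdef⟩ : ∃ L, L = LP D m g := ⟨_, rfl⟩
  obtain ⟨c1, hc1def⟩ : ∃ c1, c1 = CP D m g := ⟨_, rfl⟩
  obtain ⟨S, hSdef⟩ : ∃ S, S = SP D m g := ⟨_, rfl⟩
  have hL1 : 1 ≤ L := by rw [hLdef]; unfold LP; omega
  have hc11 : 1 ≤ c1 := hc1def ▸ CP_pos D m g
  have hS2 : S = 2 * c1 + 1 := by rw [hSdef, hc1def]; rfl
  have hc1e : c1 = 2 ^ ((m + 2) * (m + 1)) * L ^ (m + 1) := by rw [hc1def, hLdef]; rfl
  have hS1 : 1 ≤ S := by omega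
  obtain ⟨e, he⟩ : ∃ e, e = EE D := ⟨_, rfl⟩
  have he' : e = 4 * D + 6 := he
  obtain ⟨k, hk⟩ : ∃ k, k = 8 * (m + 1) ^ 2 * g ^ 2 := ⟨_, rfl⟩
  have hMM : MM D m g = (e + 1) * k := by unfold MM; rw [← he, ← hk]
  have hLe : L = g * e * ((e + 1) * k) ^ m + 1 := by rw [hLdef]; unfold LP; rw [← he, hMM]
  have hDDe : DP D m g = e * k * (L * S) := by unfold DP; rw [← he, ← hk, ← hLdef, ← hSdef]
  rw [hDDe] at hN
  rw [← hSdef, ← hc1def]
  clear hLdef hSdef hc1def hDDe hMM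
  obtain ⟨S', hS'⟩ : ∃ S', S' = S * H := ⟨_, rfl⟩
  have hSS' : S ≤ S' := by rw [hS']; exact Nat.le_mul_of_pos_right _ hH
  obtain ⟨Q, hQ⟩ : ∃ Q, Q = L * S' := ⟨_, rfl⟩
  have hS'1 : 1 ≤ S' := hS1.trans hSS'
  have hQ1 : 1 ≤ Q := by rw [hQ]; exact Nat.mul_pos hL1 hS'1
  obtain ⟨h', hh'⟩ : ∃ h', h' = k * Q := ⟨_, rfl⟩
  have hd : N = e * h' := by rw [hN, hh', hQ, hS']; ring
  obtain ⟨P, hP⟩ : ∃ P, P = g * Q := ⟨_, rfl⟩
  have hP1 : 1 ≤ P := by rw [hP]; exact Nat.mul_pos hg hQ1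
  have hQP : Q ≤ P := by rw [hP]; exact Nat.le_mul_of_pos_left _ hg
  have hgP : g ≤ P := by rw [hP]; exact Nat.le_mul_of_pos_right _ hQ1
  have hPg : h' = 8 * (m + 1) ^ 2 * (g * P) := by rw [hh', hk, hP]; ring
  have hPgP : P ≤ g * P := Nat.le_mul_of_pos_left _ hg
  obtain ⟨Y, hY⟩ : ∃ Y, Y = g * P := ⟨_, rfl⟩
  rw [← hY] at hPg hPgP
  have hY1 : 1 ≤ Y := hP1.trans hPgP
  have hh'8 : 8 ≤ h' := by
    rw [hPg]
    have : 1 ≤ (m + 1) ^ 2 := Nat.one_le_pow _ _ (by omega)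
    nlinarith
  -- real parameters
  have hbR : |(b none : ℝ)| ≤ 2 ^ g := by
    rw [← Int.cast_abs]
    exact_mod_cast hbg
  have hbR1 : 1 ≤ |(b none : ℝ)| := by
    rw [← Int.cast_abs]
    exact_mod_cast Int.one_le_abs hb0
  obtain ⟨U, hU⟩ : ∃ U : ℝ, U = |(b none : ℝ)| * ((m + 1) * (g + 1) * S') := ⟨_, rfl⟩
  have hS'r : (1 : ℝ) ≤ S' := by exact_mod_cast hS'1
  have hgr : (1 : ℝ) ≤ g := by exact_mod_cast hg
  have hm0 : (0 : ℝ) ≤ m := Nat.cast_nonneg _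
  have hU1 : 0 ≤ U := by
    rw [hU]
    positivity
  have hUQ : U + Q ≤ 2 ^ (2 * g) * Q := by
    have h1 : U ≤ 2 ^ g * ((m + 1) * (g + 1) * Q) := by
      rw [hU]
      have h2 : (S' : ℝ) ≤ Q := by
        have : S' ≤ Q := by rw [hQ]; exact Nat.le_mul_of_pos_left _ hL1
        exact_mod_cast this
      gcongr
    have h3 : (((m + 1) * (g + 1) + 1 : ℕ) : ℝ) ≤ ((2 ^ g : ℕ) : ℝ) := by exact_mod_cast hbig1
    push_cast at h3
    have h4 : (1 : ℝ) ≤ 2 ^ g := one_le_pow₀ (by norm_num)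
    have h5 : (0 : ℝ) ≤ Q := Nat.cast_nonneg _
    calc U + Q ≤ 2 ^ g * ((m + 1) * (g + 1) * Q) + 2 ^ g * Q := by nlinarith
      _ = 2 ^ g * (((m + 1) * (g + 1) + 1) * Q) := by ring
      _ ≤ 2 ^ g * (2 ^ g * Q) := by gcongr
      _ = 2 ^ (2 * g) * Q := by rw [two_mul, pow_add]; ring
  obtain ⟨BB, hBBd⟩ : ∃ BB : ℝ, BB = 2 ^ (4 * P) := ⟨_, rfl⟩
  have hBB1 : 1 ≤ BB := by rw [hBBd]; exact one_le_pow₀ (by norm_num)
  have hexp2 : ∀ n : ℕ, Real.exp n ≤ 2 ^ (2 * n) := by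
    intro n
    calc Real.exp n ≤ Real.exp ((2 * n : ℕ) * Real.log 2) := by
          apply Real.exp_le_exp.mpr
          have := Real.log_two_gt_d9
          have h0 : (0 : ℝ) ≤ n := Nat.cast_nonneg _
          push_cast
          nlinarith
      _ = 2 ^ (2 * n) := by
          rw [mul_comm, Real.exp_mul, Real.exp_log (by norm_num), Real.rpow_natCast]
  have hBB : ∀ l < Q, ∏ t ∈ range l, ((U + t) / ((t : ℝ) + 1)) ≤ BB := by
    intro l hl
    have h0 : (0 : ℝ) ≤ Q := Nat.cast_nonneg _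
    calc ∏ t ∈ range l, ((U + t) / ((t : ℝ) + 1))
        ≤ ∏ t ∈ range l, ((2 ^ (2 * g) * Q) / ((t : ℝ) + 1)) := by
          apply Finset.prod_le_prod
          · intro t _
            positivity
          · intro t ht
            have h1 : (t : ℝ) ≤ Q := by
              have := Finset.mem_range.mp ht
              exact_mod_cast (by omega : t ≤ Q)
            have h2 : U + t ≤ 2 ^ (2 * g) * Q := by linarith
            gcongr
      _ = (2 ^ (2 * g) * Q) ^ l / (l.factorial : ℝ) := prod_div_succ _ _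
      _ = (2 ^ (2 * g)) ^ l * ((Q : ℝ) ^ l / (l.factorial : ℝ)) := by rw [mul_pow]; ring
      _ ≤ (2 ^ (2 * g)) ^ Q * Real.exp Q := by
          apply mul_le_mul
          · exact pow_le_pow_right₀ (one_le_pow₀ (by norm_num)) hl.le
          · exact Pool.Agent.Y913.Bk.pow_div_factorial_le _ h0 l
          · positivity
          · positivity
      _ ≤ (2 ^ (2 * g)) ^ Q * 2 ^ (2 * Q) := by
          apply mul_le_mul_of_nonneg_left (hexp2 Q) (by positivity)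
      _ = 2 ^ (2 * P + 2 * Q) := by
          rw [← pow_mul, ← pow_add, hP]
          congr 1
          ring
      _ ≤ BB := by
          rw [hBBd]
          exact pow_le_pow_right₀ (by norm_num) (by omega)
  -- everything is at most `2 ^ h'`
  have two_le : ∀ n : ℕ, n ≤ h' → (2 : ℝ) ^ n ≤ 2 ^ h' := fun n hn =>
    pow_le_pow_right₀ (by norm_num) hn
  have two_leN : ∀ n : ℕ, n ≤ h' → 2 ^ n ≤ 2 ^ h' := fun n hn =>
    Nat.pow_le_pow_right (by norm_num) hn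
  have hBBm : BB ^ m ≤ 2 ^ h' := by
    rw [hBBd, ← pow_mul]
    apply two_le
    rw [hPg]
    calc 4 * P * m ≤ 4 * Y * m := by gcongr
      _ ≤ 8 * (m + 1) ^ 2 * Y := arith1 m Y
  have hLQ : L ≤ Q := by rw [hQ]; exact Nat.le_mul_of_pos_right _ hS'1
  have hQ2 : Q ≤ 2 ^ P := (Nat.lt_two_pow_self).le.trans (Nat.pow_le_pow_right (by norm_num) hQP)
  have hI : Q ^ m * L ≤ 2 ^ h' := by
    calc Q ^ m * L ≤ (2 ^ P) ^ m * 2 ^ P :=
          Nat.mul_le_mul (Nat.pow_le_pow_left hQ2 _) (hLQ.trans hQ2)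
      _ = 2 ^ (P * m + P) := by rw [← pow_mul, ← pow_add]
      _ ≤ 2 ^ h' := by
          apply two_leN
          rw [hPg]
          calc P * m + P ≤ Y * m + Y := by gcongr
            _ ≤ 8 * (m + 1) ^ 2 * Y := arith2 m Y
  have hQd : Q + N ≤ (e + 1) * k * Q := by
    rw [hd, hh']
    have hk1 : 1 ≤ k := by
      rw [hk]
      exact Nat.mul_pos (Nat.mul_pos (by norm_num) (Nat.pow_pos (by omega))) (Nat.pow_pos hg)
    calc Q + e * (k * Q) = (1 + e * k) * Q := by ring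
      _ ≤ ((e + 1) * k) * Q := by
          apply Nat.mul_le_mul_right
          rw [add_mul, one_mul, add_comm]
          exact Nat.add_le_add_left hk1 _
  -- the auxiliary function
  obtain ⟨hfin, hcardR⟩ := card_quot v N
  obtain ⟨G, hG, hGH, hGs⟩ := exists_aux (τ := τ) Q L N (2 ^ h') β hβ
    (by
      rw [← hm, hcardR]
      have h4 : g * e * (Q + N) ^ m < Q ^ m * L := by
        calc g * e * (Q + N) ^ m ≤ g * e * ((e + 1) * k * Q) ^ m := by gcongr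
          _ = Q ^ m * (g * e * ((e + 1) * k) ^ m) := by rw [mul_pow]; ring
          _ < Q ^ m * L := by
              apply Nat.mul_lt_mul_of_pos_left _ (Nat.pow_pos hQ1)
              rw [hLe]
              omega
      calc (Ideal.absNorm v.asIdeal ^ N) ^ (Q + N) ^ m
          ≤ ((2 ^ g) ^ N) ^ (Q + N) ^ m :=
            Nat.pow_le_pow_left (Nat.pow_le_pow_left hv _) _
        _ = (2 ^ h') ^ (g * e * (Q + N) ^ m) := by
            rw [← pow_mul, ← pow_mul, ← pow_mul]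
            congr 1
            nth_rw 1 [hd]
            ring
        _ < (2 ^ h') ^ (Q ^ m * L) := by
            apply Nat.pow_lt_pow_right _ h4
            have : 2 ^ 1 ≤ 2 ^ h' := Nat.pow_le_pow_right (by norm_num) (by omega)
            omega
        _ ≤ (2 ^ h' + 1) ^ (Q ^ m * L) := Nat.pow_le_pow_left (Nat.le_succ _) _)
  subst hQ
  have hx0 : ∀ j, σ (a j : K) / σ (c j : K) ≠ 0 := by
    intro j
    apply div_ne_zero
    · rw [map_ne_zero]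
      exact RingOfIntegers.coe_ne_zero_iff.mpr (ha0 j)
    · rw [map_ne_zero]
      exact RingOfIntegers.coe_ne_zero_iff.mpr (hc0 j)
  obtain ⟨C, s0, ρ, hs0, hCB, hbV, hρ, hρm, hCcard⟩ := obstruct hx0 b hL1 hS1 hSS' G hG hb0
    hnt (by
    intro s hs
    rw [← hm] at hs
    have hGR : ∀ i, |(G i : ℝ)| ≤ (2 : ℝ) ^ h' := by
      intro i
      rw [← Int.cast_abs]
      exact_mod_cast hGH i
    have hIr : (((L * S') ^ m * L : ℕ) : ℝ) ≤ 2 ^ h' := by exact_mod_cast hI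
    apply vanish (K := K) (T := fun j => (m + 1) * side S S' j)
      (Z := fun j => 2 ^ (g * (j.elim H (fun _ => 1) : ℕ))) hL1 v σ a c hc0 xa xc hxa hxc β b
      hβ1 hβ2 (fun j => one_le_pow₀ (by norm_num)) ha hc U BB hBB (2 ^ h') G hGR hGs
      (2 ^ h') ?_ (2 ^ (4 * h')) ?_ ?_ s hs ?_
    · -- W
      rw [Fintype.prod_option]
      simp only [side, Option.elim_none, Option.elim_some, mul_one]
      rw [Finset.prod_const, Finset.card_univ, ← hm, ← pow_mul, ← pow_mul, ← pow_mul, ← pow_add]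
      apply two_le
      have h1 : g * H * ((m + 1) * S * L) + g * ((m + 1) * S' * L * m) = (m + 1) ^ 2 * P := by
        rw [hP, hS']
        ring
      rw [h1, hPg]
      calc (m + 1) ^ 2 * P ≤ (m + 1) ^ 2 * Y := by gcongr
        _ ≤ 8 * (m + 1) ^ 2 * Y := arith3 m Y
    · -- M
      rw [← hm]
      calc (((L * S') ^ m * L : ℕ) : ℝ) * (2 ^ h' * (BB ^ m * 2 ^ h'))
          ≤ 2 ^ h' * (2 ^ h' * (2 ^ h' * 2 ^ h')) := by gcongr
        _ = 2 ^ (4 * h') := by rw [← pow_add, ← pow_add, ← pow_add]; congr 1; ring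
    · -- the norm
      rw [← hD, ← pow_mul]
      apply pow_lt_pow_right₀ (by norm_num)
      rw [hd, he']
      nlinarith
    · -- hub
      intro j
      rw [Complex.norm_intCast, hU]
      unfold uu
      push_cast
      have e1 : |(b (some j) : ℝ)| ≤ g * |(b none : ℝ)| := by
        rw [← Int.cast_abs, ← Int.cast_abs]
        exact_mod_cast hb j
      have e2 : ((s (some j) : ℕ) : ℝ) ≤ (m + 1) * S' := by
        have := hs (some j)
        simp only [side, Option.elim_some] at this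
        exact_mod_cast this
      have e3 : ((s none : ℕ) : ℝ) ≤ (m + 1) * S' := by
        have := hs none
        simp only [side, Option.elim_none] at this
        have h2 : s none ≤ (m + 1) * S' := this.trans (Nat.mul_le_mul_left _ hSS')
        exact_mod_cast h2
      calc |(b none : ℝ) * (s (some j) : ℝ) - (b (some j) : ℝ) * (s none : ℝ)|
          ≤ |(b none : ℝ) * (s (some j) : ℝ)| + |(b (some j) : ℝ) * (s none : ℝ)| := abs_sub _ _
        _ = |(b none : ℝ)| * (s (some j) : ℝ) + |(b (some j) : ℝ)| * (s none : ℝ) := by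
            rw [abs_mul, abs_mul, abs_of_nonneg (Nat.cast_nonneg (s (some j)) : (0 : ℝ) ≤ _),
              abs_of_nonneg (Nat.cast_nonneg (s none) : (0 : ℝ) ≤ _)]
        _ ≤ |(b none : ℝ)| * ((m + 1) * S') + g * |(b none : ℝ)| * ((m + 1) * S') := by
            have := abs_nonneg (b (some j) : ℝ)
            have h4 : (0 : ℝ) ≤ (s none : ℝ) := Nat.cast_nonneg _
            gcongr
        _ = _ := by ring)
    (by rw [← hm, ← hc1e]; omega)
  rw [← hm, ← hc1e] at hCcard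
  rw [← hm] at hρm
  obtain ⟨d', v', q, p0, p, h1, h2, h3, h4, h5, h6, h7, h8, h9⟩ := lattice S S' c1 g C s0 hs0 ρ b
    hb0 hb hCB hbV hρ (by rw [← hm]; exact hρm) hCcard hg hc11 (by omega) hSS'
  rw [← hm] at h5 h6
  exact ⟨ρ, d', v', q, p0, p, hρm, h1, h2, h3, h4, h5, h6, h7, h8, h9⟩

end Run7.h197.PB
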