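import Pool.Agent.Run7.h197.PB.Diff
import Pool.Agent.Run7.h197.BK.Vanish

/-!
p-adic linear forms in logarithms, sharp in one height: the auxiliary polynomial vanishes.
-/

set_option autoImplicit false

namespace Run7.h197.PB

open Finset NumberField IsDedekindDomain Run7.h197.BK

variable {K : Type} [Field K] [NumberField K]

/-- the values are integers -/
lemma int_value {τ : Type} [Fintype τ] [DecidableEq τ] {Q L : ℕ} (hL : 1 ≤ L)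
    (G : ((τ → Fin Q) × Fin L) → ℤ) (a c : Option τ → 𝓞 K) (hc0 : ∀ j, c j ≠ 0)
    (u : τ → ℤ) (s : Option τ → ℕ) (T : Option τ → ℕ) (hs : ∀ j, s j ≤ T j)
    (Z : Option τ → ℝ) (hZ : ∀ j, 1 ≤ Z j) (ha : ∀ (φ : K →+* ℂ) j, ‖φ (a j : K)‖ ≤ Z j)
    (hc : ∀ (φ : K →+* ℂ) j, ‖φ (c j : K)‖ ≤ Z j) (Hg BB W : ℝ) (hHg : ∀ i, |(G i : ℝ)| ≤ Hg)
    (hBB : ∀ l < Q, ∀ i, ‖bp l (u i : ℂ)‖ ≤ BB)
    (hW : ∏ j, Z j ^ (T j * L) ≤ W) (q : 𝓞 K)
    (hqdef : q = ∑ i, ((G i : ℤ) : 𝓞 K) * ((∏ j, ((Ring.choose (u j) (i.1 j : ℕ) : ℤ) : 𝓞 K)) *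
      ∏ j, ((a j) ^ (s j * (i.2 : ℕ)) * (c j) ^ (s j * (L - 1 - (i.2 : ℕ)))))) :
    (∀ φ : K →+* ℂ, ‖φ (q : K)‖ ≤ ((Q ^ Fintype.card τ * L : ℕ) : ℝ) *
        (Hg * (BB ^ Fintype.card τ * W))) ∧
      ∀ φ : K →+* ℂ, φ (q : K) = (∏ j, (φ (c j : K)) ^ (s j * (L - 1))) *
      ∑ i, (G i : ℂ) * ((∏ j, bp (i.1 j : ℕ) (u j : ℂ)) *
        (∏ j, ((φ (a j : K)) / (φ (c j : K))) ^ s j) ^ (i.2 : ℕ)) := by
  have hq : ∀ φ : K →+* ℂ, φ (q : K) = ∑ i, (G i : ℂ) * ((∏ j, bp (i.1 j : ℕ) (u j : ℂ)) *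
      ∏ j, (φ (a j : K) ^ (s j * (i.2 : ℕ)) * φ (c j : K) ^ (s j * (L - 1 - (i.2 : ℕ))))) := by
    intro φ
    simp only [hqdef, map_sum, map_mul, map_prod, map_pow, map_intCast]
    apply Finset.sum_congr rfl
    intro i _
    congr 2
    apply Finset.prod_congr rfl
    intro j _
    exact bp_int _ _
  refine ⟨?_, ?_⟩
  · intro φ
    rw [hq φ]
    have hcI : (Finset.univ : Finset ((τ → Fin Q) × Fin L)).card = Q ^ Fintype.card τ * L := by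
      rw [Finset.card_univ, Fintype.card_prod, Fintype.card_fun, Fintype.card_fin, Fintype.card_fin]
    rw [← hcI, ← nsmul_eq_mul, ← Finset.sum_const]
    refine (norm_sum_le _ _).trans (Finset.sum_le_sum fun i _ => ?_)
    rw [norm_mul, norm_mul, norm_prod, norm_prod, Complex.norm_intCast]
    have hHg0 : 0 ≤ Hg := (abs_nonneg _).trans (hHg i)
    have e1 : ∏ j, ‖bp (i.1 j : ℕ) (u j : ℂ)‖ ≤ BB ^ Fintype.card τ := by
      rw [← Finset.card_univ, ← Finset.prod_const]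
      exact Finset.prod_le_prod (fun _ _ => norm_nonneg _) (fun j _ => hBB _ (i.1 j).isLt j)
    have e2 : ∏ j, ‖φ (a j : K) ^ (s j * (i.2 : ℕ)) * φ (c j : K) ^ (s j * (L - 1 - (i.2 : ℕ)))‖ ≤
        W := by
      refine le_trans (Finset.prod_le_prod (fun _ _ => norm_nonneg _) (fun j _ => ?_)) hW
      rw [norm_mul, norm_pow, norm_pow]
      calc ‖φ (a j : K)‖ ^ (s j * (i.2 : ℕ)) * ‖φ (c j : K)‖ ^ (s j * (L - 1 - (i.2 : ℕ)))
          ≤ Z j ^ (s j * (i.2 : ℕ)) * Z j ^ (s j * (L - 1 - (i.2 : ℕ))) := by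
            have := ha φ j
            have := hc φ j
            have := hZ j
            gcongr
        _ = Z j ^ (s j * (i.2 : ℕ) + s j * (L - 1 - (i.2 : ℕ))) := by rw [← pow_add]
        _ ≤ Z j ^ (T j * L) := by
            apply pow_le_pow_right₀ (hZ j)
            rw [← Nat.mul_add]
            apply Nat.mul_le_mul (hs j)
            have := i.2.isLt
            omega
    have e3 : 0 ≤ ∏ j, ‖bp (i.1 j : ℕ) (u j : ℂ)‖ := Finset.prod_nonneg (fun _ _ => norm_nonneg _)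
    have e4 : 0 ≤ ∏ j, ‖φ (a j : K) ^ (s j * (i.2 : ℕ)) *
        φ (c j : K) ^ (s j * (L - 1 - (i.2 : ℕ)))‖ := Finset.prod_nonneg (fun _ _ => norm_nonneg _)
    exact mul_le_mul (hHg i) (mul_le_mul e1 e2 e4 (e3.trans e1)) (mul_nonneg e3 e4) hHg0
  · intro φ
    rw [hq φ, Finset.mul_sum]
    apply Finset.sum_congr rfl
    intro i _
    have h1 : ∏ j, (φ (a j : K) ^ (s j * (i.2 : ℕ)) * φ (c j : K) ^ (s j * (L - 1 - (i.2 : ℕ)))) =
        (∏ j, (φ (c j : K)) ^ (s j * (L - 1))) *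
          (∏ j, ((φ (a j : K)) / (φ (c j : K))) ^ s j) ^ (i.2 : ℕ) := by
      rw [← Finset.prod_pow, ← Finset.prod_mul_distrib]
      apply Finset.prod_congr rfl
      intro j _
      have hy0 : φ (c j : K) ≠ 0 := by
        rw [map_ne_zero]
        exact RingOfIntegers.coe_ne_zero_iff.mpr (hc0 j)
      have h2 : s j * (L - 1) = s j * (i.2 : ℕ) + s j * (L - 1 - (i.2 : ℕ)) := by
        rw [← Nat.mul_add]
        congr 1
        have := i.2.isLt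
        omega
      rw [h2, pow_add, div_pow, div_pow, ← pow_mul, ← pow_mul]
      field_simp
    rw [h1]
    ring

/-- a small integer which is divisible by a high power of a prime ideal vanishes -/
theorem eq_zero_of_mem (v : HeightOneSpectrum (𝓞 K)) {N : ℕ} {q : 𝓞 K}
    (hq : q ∈ v.asIdeal ^ N) {M : ℝ} (hM : ∀ φ : K →+* ℂ, ‖φ (q : K)‖ ≤ M)
    (hNM : M ^ Module.finrank ℚ K < 2 ^ N) : q = 0 := by
  by_contra hne
  have h4 : v.asIdeal ^ N ∣ Ideal.span {q} := by rwa [Ideal.dvd_span_singleton]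
  have h5 := map_dvd Ideal.absNorm h4
  rw [map_pow] at h5
  have h6 : Ideal.absNorm (Ideal.span {q}) ≠ 0 := by
    rw [Ne, Ideal.absNorm_eq_zero_iff, Ideal.span_singleton_eq_bot]
    exact hne
  have hNv : 2 ≤ Ideal.absNorm v.asIdeal := by
    have h1 : Ideal.absNorm v.asIdeal ≠ 0 := by
      rw [Ne, Ideal.absNorm_eq_zero_iff]
      exact v.ne_bot
    have h2 : Ideal.absNorm v.asIdeal ≠ 1 := by
      rw [Ne, Ideal.absNorm_eq_one_iff]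
      exact v.isPrime.ne_top
    omega
  have h7 : 2 ^ N ≤ Ideal.absNorm (Ideal.span {q}) :=
    (Nat.pow_le_pow_left hNv N).trans (Nat.le_of_dvd (Nat.pos_of_ne_zero h6) h5)
  have h8 : (Ideal.absNorm (Ideal.span {q}) : ℝ) ≤ M ^ Module.finrank ℚ K := by
    rw [Ideal.absNorm_span_singleton]
    obtain ⟨σ⟩ := (inferInstance : Nonempty (K →+* ℂ))
    have h9 := norm_norm_le_norm_mul_house_pow (q : K) σ
    have hM0 : 0 ≤ M := (norm_nonneg _).trans (hM σ)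
    have h10 : house (q : K) ≤ M := by
      unfold house
      rw [pi_norm_le_iff_of_nonneg hM0]
      exact hM
    have h11 : ‖Algebra.norm ℚ (q : K)‖ = ((Algebra.norm ℤ q).natAbs : ℝ) := by
      rw [← Algebra.coe_norm_int, ← Rat.norm_cast_real, Rat.cast_intCast, Real.norm_eq_abs,
        Nat.cast_natAbs, Int.cast_abs]
    rw [h11] at h9
    refine h9.trans ?_
    have hD : 1 ≤ Module.finrank ℚ K := Module.finrank_pos
    calc ‖σ (q : K)‖ * house (q : K) ^ (Module.finrank ℚ K - 1)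
        ≤ M * M ^ (Module.finrank ℚ K - 1) := by
          have := house_nonneg (q : K)
          gcongr
          exact hM σ
      _ = M ^ Module.finrank ℚ K := by
          rw [← pow_succ']
          congr 1
          omega
  have h9 : (2 : ℝ) ^ N ≤ M ^ Module.finrank ℚ K := by
    refine le_trans ?_ h8
    exact_mod_cast h7
  linarith

theorem vanish {τ : Type} [Fintype τ] [DecidableEq τ] {Q L N : ℕ} (hL : 1 ≤ L)
    (v : HeightOneSpectrum (𝓞 K)) (σ : K →+* ℂ) (a c : Option τ → 𝓞 K) (hc0 : ∀ j, c j ≠ 0)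
    (xa xc : Option τ → (𝓞 K ⧸ v.asIdeal ^ N)ˣ)
    (hxa : ∀ j, ((xa j : (𝓞 K ⧸ v.asIdeal ^ N)ˣ) : 𝓞 K ⧸ v.asIdeal ^ N) =
      Ideal.Quotient.mk (v.asIdeal ^ N) (a j))
    (hxc : ∀ j, ((xc j : (𝓞 K ⧸ v.asIdeal ^ N)ˣ) : 𝓞 K ⧸ v.asIdeal ^ N) =
      Ideal.Quotient.mk (v.asIdeal ^ N) (c j))
    (β : τ → (𝓞 K ⧸ v.asIdeal ^ N)ˣ) (b : Option τ → ℤ)
    (hβ1 : ∀ i, xa (some i) / xc (some i) = β i ^ (b none))
    (hβ2 : xa none / xc none = ∏ i, β i ^ (-(b (some i))))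
    (T : Option τ → ℕ) (Z : Option τ → ℝ) (hZ : ∀ j, 1 ≤ Z j)
    (ha : ∀ (φ : K →+* ℂ) j, ‖φ (a j : K)‖ ≤ Z j)
    (hc : ∀ (φ : K →+* ℂ) j, ‖φ (c j : K)‖ ≤ Z j)
    (U BB : ℝ) (hBB : ∀ l < Q, ∏ t ∈ range l, ((U + t) / ((t : ℝ) + 1)) ≤ BB)
    (Hg : ℝ) (G : ((τ → Fin Q) × Fin L) → ℤ) (hHg : ∀ i, |(G i : ℝ)| ≤ Hg)
    (hGs : ∀ u : τ → ℤ, ∑ i, ((G i : ℤ) : 𝓞 K ⧸ v.asIdeal ^ N) *
      ∏ j, (((Ring.choose (u j) (i.1 j : ℕ) : ℤ) : 𝓞 K ⧸ v.asIdeal ^ N) *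
        (((β j ^ (u j)) ^ (i.2 : ℕ) : (𝓞 K ⧸ v.asIdeal ^ N)ˣ) : 𝓞 K ⧸ v.asIdeal ^ N)) = 0)
    (W : ℝ) (hW : ∏ j, Z j ^ (T j * L) ≤ W) (M : ℝ)
    (hM : ((Q ^ Fintype.card τ * L : ℕ) : ℝ) * (Hg * (BB ^ Fintype.card τ * W)) ≤ M)
    (hNM : M ^ Module.finrank ℚ K < 2 ^ N)
    (s : Option τ → ℕ) (hs : ∀ j, s j ≤ T j)
    (hub : ∀ j, ‖(uu b (fun j => (s j : ℤ)) j : ℂ)‖ ≤ U) :
    ∑ i, (G i : ℂ) * ((∏ j, bp (i.1 j : ℕ) (uu b (fun j => (s j : ℤ)) j : ℂ)) *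
        (∏ j, (σ (a j : K) / σ (c j : K)) ^ s j) ^ (i.2 : ℕ)) = 0 := by
  classical
  obtain ⟨q, hqdef⟩ : ∃ q : 𝓞 K, q = ∑ i, ((G i : ℤ) : 𝓞 K) *
      ((∏ j, ((Ring.choose (uu b (fun j => (s j : ℤ)) j) (i.1 j : ℕ) : ℤ) : 𝓞 K)) *
      ∏ j, ((a j) ^ (s j * (i.2 : ℕ)) * (c j) ^ (s j * (L - 1 - (i.2 : ℕ))))) := ⟨_, rfl⟩
  obtain ⟨hqall, hq⟩ := int_value hL G a c hc0
    (fun j => uu b (fun j => (s j : ℤ)) j) s T hs Z hZ ha hc Hg BB W hHg (by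
      intro l hl i
      exact (norm_bp_le U _ _ (hub i)).trans (hBB _ hl)) hW q hqdef
  -- the value in the residue ring
  have hx : ∏ j, (xa j / xc j) ^ (s j) = ∏ i, β i ^ (uu b (fun j => (s j : ℤ)) i) := by
    rw [Fintype.prod_option, hβ2, ← Finset.prod_pow, ← Finset.prod_mul_distrib]
    refine Finset.prod_congr rfl fun i _ => ?_
    rw [hβ1 i]
    unfold uu
    rw [← zpow_natCast, ← zpow_natCast, ← zpow_mul, ← zpow_mul, ← zpow_add]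
    congr 1
    ring
  have hmk : Ideal.Quotient.mk (v.asIdeal ^ N) q = 0 := by
    have e1 : ∀ i : (τ → Fin Q) × Fin L,
        Ideal.Quotient.mk (v.asIdeal ^ N) (∏ j, ((a j) ^ (s j * (i.2 : ℕ)) *
          (c j) ^ (s j * (L - 1 - (i.2 : ℕ))))) =
        (((∏ j, (xc j) ^ (s j * (L - 1))) * (∏ j, (β j ^ (uu b (fun j => (s j : ℤ)) j)) ^
          (i.2 : ℕ)) : (𝓞 K ⧸ v.asIdeal ^ N)ˣ) : 𝓞 K ⧸ v.asIdeal ^ N) := by
      intro i
      rw [Finset.prod_pow, ← hx, ← Finset.prod_pow, ← Finset.prod_mul_distrib, map_prod]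
      rw [Units.coe_prod]
      refine Finset.prod_congr rfl fun j _ => ?_
      rw [map_mul, map_pow, map_pow, ← hxa, ← hxc, ← Units.val_pow_eq_pow_val,
        ← Units.val_pow_eq_pow_val, ← Units.val_mul]
      congr 1
      have h2 : s j * (L - 1) = s j * (i.2 : ℕ) + s j * (L - 1 - (i.2 : ℕ)) := by
        rw [← Nat.mul_add]
        congr 1
        have := i.2.isLt
        omega
      rw [h2, pow_add, div_pow, div_pow, ← pow_mul, ← pow_mul]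
      rw [mul_comm (xc j ^ (s j * (i.2 : ℕ))), mul_assoc, mul_div_cancel, mul_comm]
    rw [hqdef, map_sum]
    have e2 := hGs (fun j => uu b (fun j => (s j : ℤ)) j)
    have e3 : ∑ i, (Ideal.Quotient.mk (v.asIdeal ^ N)) (((G i : ℤ) : 𝓞 K) *
        ((∏ j, ((Ring.choose (uu b (fun j => (s j : ℤ)) j) (i.1 j : ℕ) : ℤ) : 𝓞 K)) *
        ∏ j, ((a j) ^ (s j * (i.2 : ℕ)) * (c j) ^ (s j * (L - 1 - (i.2 : ℕ)))))) =
        (((∏ j, (xc j) ^ (s j * (L - 1))) : (𝓞 K ⧸ v.asIdeal ^ N)ˣ) : 𝓞 K ⧸ v.asIdeal ^ N) *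
        ∑ i, ((G i : ℤ) : 𝓞 K ⧸ v.asIdeal ^ N) *
      ∏ j, (((Ring.choose (uu b (fun j => (s j : ℤ)) j) (i.1 j : ℕ) : ℤ) :
        𝓞 K ⧸ v.asIdeal ^ N) *
        (((β j ^ (uu b (fun j => (s j : ℤ)) j)) ^ (i.2 : ℕ) : (𝓞 K ⧸ v.asIdeal ^ N)ˣ) :
          𝓞 K ⧸ v.asIdeal ^ N)) := by
      rw [Finset.mul_sum]
      refine Finset.sum_congr rfl fun i _ => ?_
      rw [map_mul, map_mul, e1 i, map_intCast, map_prod, Finset.prod_mul_distrib,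
        Units.val_mul, Units.coe_prod (fun j => (β j ^ (uu b (fun j => (s j : ℤ)) j)) ^
          (i.2 : ℕ))]
      have e4 : ∏ j, (Ideal.Quotient.mk (v.asIdeal ^ N))
          ((Ring.choose (uu b (fun j => (s j : ℤ)) j) (i.1 j : ℕ) : ℤ) : 𝓞 K) =
          ∏ j, ((Ring.choose (uu b (fun j => (s j : ℤ)) j) (i.1 j : ℕ) : ℤ) :
            𝓞 K ⧸ v.asIdeal ^ N) := Finset.prod_congr rfl fun j _ => map_intCast _ _
      rw [e4]
      ring
    rw [e3, e2, mul_zero]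
  rw [Ideal.Quotient.eq_zero_iff_mem] at hmk
  have hq0 : q = 0 := eq_zero_of_mem v hmk (fun φ => (hqall φ).trans hM) hNM
  have hqσ := hq σ
  rw [hq0] at hqσ
  have hCne : ∏ j, (σ (c j : K)) ^ (s j * (L - 1)) ≠ 0 := by
    refine Finset.prod_ne_zero_iff.mpr (fun j _ => pow_ne_zero _ ?_)
    rw [map_ne_zero]
    exact RingOfIntegers.coe_ne_zero_iff.mpr (hc0 j)
  have h6 : (∏ j, (σ (c j : K)) ^ (s j * (L - 1))) *
      ∑ i, (G i : ℂ) * ((∏ j, bp (i.1 j : ℕ) (uu b (fun j => (s j : ℤ)) j : ℂ)) *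
        (∏ j, (σ (a j : K) / σ (c j : K)) ^ s j) ^ (i.2 : ℕ)) = 0 := by
    rw [← hqσ]
    simp
  rcases mul_eq_zero.mp h6 with h | h
  · exact absurd h hCne
  · exact h

end Run7.h197.PB
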