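import Pool.Agent.Run7.h197.PB.Step
import Pool.Agent.Run7.h197.BK.Weak

/-!
p-adic linear forms in logarithms, sharp in one height: the bound.
-/

set_option autoImplicit false

namespace Run7.h197.PB

open Finset NumberField IsDedekindDomain Run7.h197.BK
open Pool.Agent.Y913.Bk (PolyB)

lemma polyB_LP (D m : ℕ) : PolyB (fun g => LP D m g) :=
  ((PolyB.id.mul (PolyB.const (EE D))).mul ((polyB_MM D m).pow m)).add (PolyB.const 1)

lemma polyB_CP (D m : ℕ) : PolyB (fun g => CP D m g) :=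
  (PolyB.const (2 ^ ((m + 2) * (m + 1)))).mul ((polyB_LP D m).pow (m + 1))

lemma polyB_SP (D m : ℕ) : PolyB (fun g => SP D m g) :=
  ((PolyB.const 2).mul (polyB_CP D m)).add (PolyB.const 1)

lemma polyB_DP (D m : ℕ) : PolyB (fun g => DP D m g) :=
  ((PolyB.const (EE D)).mul ((PolyB.const (8 * (m + 1) ^ 2)).mul (PolyB.id.pow 2))).mul
    ((polyB_LP D m).mul (polyB_SP D m))

variable {K : Type} [Field K]

/-- the numerator of a product of powers -/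
noncomputable def pz {J : Type} [Fintype J] (a c : J → 𝓞 K) (d : J → ℤ) : 𝓞 K :=
  ∏ j, (if 0 ≤ d j then a j else c j) ^ (d j).natAbs

lemma pz_ne_zero {J : Type} [Fintype J] {a c : J → 𝓞 K} (ha0 : ∀ j, a j ≠ 0)
    (hc0 : ∀ j, c j ≠ 0) (d : J → ℤ) : pz a c d ≠ 0 := by
  apply Finset.prod_ne_zero_iff.mpr
  intro j _
  apply pow_ne_zero
  split_ifs
  · exact ha0 j
  · exact hc0 j

lemma pz_bound {J : Type} [Fintype J] {a c : J → 𝓞 K} {Z : J → ℝ}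
    (ha : ∀ (φ : K →+* ℂ) j, ‖φ (a j : K)‖ ≤ Z j)
    (hc : ∀ (φ : K →+* ℂ) j, ‖φ (c j : K)‖ ≤ Z j) (d : J → ℤ) (φ : K →+* ℂ) :
    ‖φ ((pz a c d : 𝓞 K) : K)‖ ≤ ∏ j, Z j ^ (d j).natAbs := by
  have hψ : ∀ (x : 𝓞 K), φ (x : K) = (φ.comp (algebraMap (𝓞 K) K)) x := fun x => rfl
  unfold pz
  rw [hψ, map_prod, norm_prod]
  apply Finset.prod_le_prod (fun _ _ => norm_nonneg _)
  intro j _
  rw [map_pow, norm_pow]
  apply pow_le_pow_left₀ (norm_nonneg _)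
  split_ifs
  · exact ha φ j
  · exact hc φ j

lemma pz_div {J : Type} [Fintype J] {F : Type} [Field F] (φ : 𝓞 K →+* F) (a c : J → 𝓞 K)
    (d : J → ℤ) : φ (pz a c d) / φ (pz c a d) = ∏ j, (φ (a j) / φ (c j)) ^ (d j) := by
  unfold pz
  rw [map_prod, map_prod, ← Finset.prod_div_distrib]
  apply Finset.prod_congr rfl
  intro j _
  rw [map_pow, map_pow, ← div_pow, ← zpow_natCast]
  by_cases h : 0 ≤ d j
  · rw [if_pos h, if_pos h, Int.natAbs_of_nonneg h]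
  · rw [if_neg h, if_neg h]
    have h3 : (((d j).natAbs : ℕ) : ℤ) = - d j := by omega
    rw [h3, zpow_neg, ← inv_zpow, inv_div]

lemma pz_notMem {J : Type} [Fintype J] {a c : J → 𝓞 K} (v : HeightOneSpectrum (𝓞 K))
    (ha0 : ∀ j, a j ∉ v.asIdeal) (hc0 : ∀ j, c j ∉ v.asIdeal) (d : J → ℤ) :
    pz a c d ∉ v.asIdeal := by
  intro h
  unfold pz at h
  rw [v.isPrime.prod_mem_iff] at h
  obtain ⟨j, -, hj⟩ := h
  have := v.isPrime.mem_of_pow_mem _ hj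
  split_ifs at this
  · exact ha0 j this
  · exact hc0 j this

variable [NumberField K]

/-- units of a quotient -/
lemma exists_unit (v : HeightOneSpectrum (𝓞 K)) (N : ℕ) {c : 𝓞 K} (hc : c ∉ v.asIdeal) :
    ∃ u : (𝓞 K ⧸ v.asIdeal ^ N)ˣ, ((u : (𝓞 K ⧸ v.asIdeal ^ N)ˣ) : 𝓞 K ⧸ v.asIdeal ^ N) =
      Ideal.Quotient.mk (v.asIdeal ^ N) c := by
  have h1 : IsUnit (Ideal.Quotient.mk (v.asIdeal ^ N) c) := by
    have hmax : v.asIdeal.IsMaximal := v.isMaximal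
    have h2 : IsCoprime v.asIdeal (Ideal.span {c}) := by
      rw [Ideal.isCoprime_iff_sup_eq]
      by_contra hne
      have h3 : v.asIdeal = v.asIdeal ⊔ Ideal.span {c} := hmax.eq_of_le hne le_sup_left
      apply hc
      rw [h3]
      exact Ideal.mem_sup_right (Ideal.mem_span_singleton_self c)
    have h4 : IsCoprime (v.asIdeal ^ N) (Ideal.span {c}) := h2.pow_left
    rw [Ideal.isCoprime_iff_exists] at h4
    obtain ⟨x, hx, y, hy, hxy⟩ := h4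
    obtain ⟨z, rfl⟩ := Ideal.mem_span_singleton.1 hy
    have h5 : Ideal.Quotient.mk (v.asIdeal ^ N) c * Ideal.Quotient.mk (v.asIdeal ^ N) z = 1 := by
      rw [← map_mul, ← map_one (Ideal.Quotient.mk (v.asIdeal ^ N)), ← hxy, map_add,
        Ideal.Quotient.eq_zero_iff_mem.2 hx, zero_add]
    exact IsUnit.of_mul_eq_one _ h5
  obtain ⟨u, hu⟩ := h1
  exact ⟨u, hu⟩

/-- the product of powers in the quotient -/
lemma pz_quot {J : Type} [Fintype J] {a c : J → 𝓞 K} {v : HeightOneSpectrum (𝓞 K)} {N : ℕ}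
    (xa xc : J → (𝓞 K ⧸ v.asIdeal ^ N)ˣ)
    (hxa : ∀ j, ((xa j : (𝓞 K ⧸ v.asIdeal ^ N)ˣ) : 𝓞 K ⧸ v.asIdeal ^ N) =
      Ideal.Quotient.mk (v.asIdeal ^ N) (a j))
    (hxc : ∀ j, ((xc j : (𝓞 K ⧸ v.asIdeal ^ N)ˣ) : 𝓞 K ⧸ v.asIdeal ^ N) =
      Ideal.Quotient.mk (v.asIdeal ^ N) (c j)) (d : J → ℤ) :
    ∃ X Y : (𝓞 K ⧸ v.asIdeal ^ N)ˣ, ((X : (𝓞 K ⧸ v.asIdeal ^ N)ˣ) : 𝓞 K ⧸ v.asIdeal ^ N) =
      Ideal.Quotient.mk (v.asIdeal ^ N) (pz a c d) ∧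
      ((Y : (𝓞 K ⧸ v.asIdeal ^ N)ˣ) : 𝓞 K ⧸ v.asIdeal ^ N) =
      Ideal.Quotient.mk (v.asIdeal ^ N) (pz c a d) ∧ X / Y = ∏ j, (xa j / xc j) ^ (d j) := by
  refine ⟨∏ j, (if 0 ≤ d j then xa j else xc j) ^ (d j).natAbs,
    ∏ j, (if 0 ≤ d j then xc j else xa j) ^ (d j).natAbs, ?_, ?_, ?_⟩
  · unfold pz
    rw [Units.coe_prod, map_prod]
    refine Finset.prod_congr rfl fun j _ => ?_
    rw [Units.val_pow_eq_pow_val, map_pow]
    congr 1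
    split_ifs
    · exact hxa j
    · exact hxc j
  · unfold pz
    rw [Units.coe_prod, map_prod]
    refine Finset.prod_congr rfl fun j _ => ?_
    rw [Units.val_pow_eq_pow_val, map_pow]
    congr 1
    split_ifs
    · exact hxc j
    · exact hxa j
  · rw [← Finset.prod_div_distrib]
    refine Finset.prod_congr rfl fun j _ => ?_
    rw [← div_pow, ← zpow_natCast]
    by_cases h : 0 ≤ d j
    · rw [if_pos h, if_pos h, Int.natAbs_of_nonneg h]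
    · rw [if_neg h, if_neg h]
      have h3 : (((d j).natAbs : ℕ) : ℤ) = - d j := by omega
      rw [h3, zpow_neg, ← inv_zpow, inv_div]

lemma pz_mem_iff {J : Type} [Fintype J] {a c : J → 𝓞 K} {v : HeightOneSpectrum (𝓞 K)} {N : ℕ}
    (xa xc : J → (𝓞 K ⧸ v.asIdeal ^ N)ˣ)
    (hxa : ∀ j, ((xa j : (𝓞 K ⧸ v.asIdeal ^ N)ˣ) : 𝓞 K ⧸ v.asIdeal ^ N) =
      Ideal.Quotient.mk (v.asIdeal ^ N) (a j))
    (hxc : ∀ j, ((xc j : (𝓞 K ⧸ v.asIdeal ^ N)ˣ) : 𝓞 K ⧸ v.asIdeal ^ N) =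
      Ideal.Quotient.mk (v.asIdeal ^ N) (c j)) (d : J → ℤ) :
    pz a c d - pz c a d ∈ v.asIdeal ^ N ↔ ∏ j, (xa j / xc j) ^ (d j) = 1 := by
  obtain ⟨X, Y, hX, hY, hXY⟩ := pz_quot xa xc hxa hxc d
  rw [← hXY, div_eq_one, ← Ideal.Quotient.eq_zero_iff_mem, map_sub, sub_eq_zero, ← hX, ← hY,
    Units.ext_iff]

/-- raising to the `p`-th power -/
lemma pow_p_mem (v : HeightOneSpectrum (𝓞 K)) {p : ℕ} (hpv : (p : 𝓞 K) ∈ v.asIdeal)
    {a c : 𝓞 K} (h : a - c ∈ v.asIdeal) (k : ℕ) :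
    a ^ p ^ k - c ^ p ^ k ∈ v.asIdeal ^ (k + 1) := by
  induction k with
  | zero => simpa using h
  | succ k ih =>
    obtain ⟨A, hA⟩ : ∃ A, A = a ^ p ^ k := ⟨_, rfl⟩
    obtain ⟨C, hC⟩ : ∃ C, C = c ^ p ^ k := ⟨_, rfl⟩
    rw [← hA, ← hC] at ih
    have e1 : a ^ p ^ (k + 1) = A ^ p := by rw [hA, ← pow_mul, pow_succ]
    have e2 : c ^ p ^ (k + 1) = C ^ p := by rw [hC, ← pow_mul, pow_succ]
    rw [e1, e2]
    -- the sum is in the ideal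
    have h1 : A - C ∈ v.asIdeal := Ideal.pow_le_self (Nat.succ_ne_zero k) ih
    obtain ⟨sm, hsm⟩ : ∃ sm, sm = ∑ i ∈ range p, A ^ i * C ^ (p - 1 - i) := ⟨_, rfl⟩
    have h2 : Ideal.Quotient.mk v.asIdeal sm = 0 := by
      have h3 : Ideal.Quotient.mk v.asIdeal A = Ideal.Quotient.mk v.asIdeal C := by
        rw [Ideal.Quotient.eq]
        exact h1
      rw [hsm, map_sum]
      have h4 : ∀ i ∈ range p, Ideal.Quotient.mk v.asIdeal (A ^ i * C ^ (p - 1 - i)) =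
          (Ideal.Quotient.mk v.asIdeal C) ^ (p - 1) := by
        intro i hi
        rw [Finset.mem_range] at hi
        rw [map_mul, map_pow, map_pow, h3, ← pow_add]
        congr 1
        omega
      rw [Finset.sum_congr rfl h4, Finset.sum_const, Finset.card_range, nsmul_eq_mul]
      have h5 : ((p : ℕ) : 𝓞 K ⧸ v.asIdeal) = 0 := by
        rw [← map_natCast (Ideal.Quotient.mk v.asIdeal), Ideal.Quotient.eq_zero_iff_mem]
        exact hpv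
      rw [h5, zero_mul]
    rw [Ideal.Quotient.eq_zero_iff_mem] at h2
    have h6 : sm * (A - C) ∈ v.asIdeal * v.asIdeal ^ (k + 1) := Ideal.mul_mem_mul h2 ih
    have h7 : sm * (A - C) = A ^ p - C ^ p := by
      rw [hsm]
      exact Commute.geom_sum₂_mul (Commute.all A C) p
    rw [h7] at h6
    rw [pow_succ' v.asIdeal (k + 1)]
    exact h6

variable (K) in
/-- the p-adic bound for `m + 1` numbers with the exponent `κ`, for `g ≥ g0` -/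
def PBd (m κ g0 : ℕ) : Prop := ∀ g, g0 ≤ g → ∀ H, 1 ≤ H → ∀ (v : HeightOneSpectrum (𝓞 K)),
  Ideal.absNorm v.asIdeal ≤ 2 ^ g → ∀ (a c : Option (Fin m) → 𝓞 K) (b : Option (Fin m) → ℤ),
  (∀ j, c j ∉ v.asIdeal) → (∀ j, a j - c j ∈ v.asIdeal) →
  (∀ (φ : K →+* ℂ) j, ‖φ (a j : K)‖ ≤ 2 ^ (g * (j.elim H (fun _ => 1) : ℕ))) →
  (∀ (φ : K →+* ℂ) j, ‖φ (c j : K)‖ ≤ 2 ^ (g * (j.elim H (fun _ => 1) : ℕ))) →
  b none ≠ 0 → |b none| ≤ 2 ^ g → (∀ i : Fin m, |b (some i)| ≤ g * |b none|) →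
  (∀ p r : ℕ, p.Prime → (p : 𝓞 K) ∈ v.asIdeal → ((p ^ r : ℕ) : ℤ) ∣ b none → p ^ r ≤ g) →
  (∀ N : ℕ, 1 ≤ N → (∏ j, ((a j : K) / (c j : K)) ^ (b j)) ^ N ≠ 1) →
  pz a c b - pz c a b ∉ v.asIdeal ^ (g ^ κ * H)

lemma PBd.mono {m κ g0 κ' g0' : ℕ} (h : PBd K m κ g0) (hκ : κ ≤ κ') (hg : g0 ≤ g0')
    (hg1 : 1 ≤ g0') : PBd K m κ' g0' := by
  intro g hg' H hH v h0 a c b h1 h2 h3 h4 h5 h6 h7 h8 h9 h10
  refine h g (hg.trans hg') H hH v h0 a c b h1 h2 h3 h4 h5 h6 h7 h8 h9 ?_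
  exact Ideal.pow_le_pow_right (Nat.mul_le_mul_right _ (Nat.pow_le_pow_right (by omega) hκ)) h10

/-- the prime number below a place -/
lemma exists_prime_mem (v : HeightOneSpectrum (𝓞 K)) : ∃ p : ℕ, p.Prime ∧ (p : 𝓞 K) ∈ v.asIdeal := by
  have h0 : v.asIdeal.under ℤ ≠ ⊥ := by
    intro h
    exact v.ne_bot (Ideal.eq_bot_of_comap_eq_bot (R := ℤ) h)
  have hp : (v.asIdeal.under ℤ).IsPrime := inferInstance
  obtain ⟨x, hx⟩ := (IsPrincipalIdealRing.principal (v.asIdeal.under ℤ)).principal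
  have hx' : v.asIdeal.under ℤ = Ideal.span {x} := hx
  have hx0 : x ≠ 0 := by
    rintro rfl
    apply h0
    rw [hx']
    simp
  rw [hx'] at hp
  have hxp : Prime x := (Ideal.span_singleton_prime hx0).1 hp
  have hq : x.natAbs.Prime := Int.prime_iff_natAbs_prime.1 hxp
  refine ⟨x.natAbs, hq, ?_⟩
  have h1 : (x.natAbs : ℤ) ∈ v.asIdeal.under ℤ := by
    rw [hx', Ideal.mem_span_singleton]
    exact Int.dvd_natAbs.2 dvd_rfl
  rw [Ideal.mem_comap] at h1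
  simpa using h1

end Run7.h197.PB
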